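import Mathlib

set_option autoImplicit false
open MeasureTheory Set

namespace Pool.Agent.R223.StkDefs

/-- the Dirichlet integral `∫_𝔻 |∇u|² dx` (`u_x² + u_y²`, with `ℂ` as the plane) -/
noncomputable def Dir (u : ℂ → ℝ) : ℝ :=
  ∫ z in Metric.ball (0 : ℂ) 1, ((fderiv ℝ u z 1) ^ 2 + (fderiv ℝ u z Complex.I) ^ 2)

/-- `∫_Γ ρ u² ds`, the density `ρ` being a function of the angle `θ ∈ (-π, π]` -/
noncomputable def Bd (ρ : ℝ → ℝ) (u : ℂ → ℝ) : ℝ :=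
  ∫ θ in (-Real.pi)..Real.pi, ρ θ * (u (Complex.exp (θ * Complex.I))) ^ 2

/-- the numbers `Λ ≥ 0` such that some `(k+1)`-dimensional space `E` of smooth functions satisfies
`∫_𝔻 |∇u|² ≤ Λ ∫_Γ ρ u²` and `∫_Γ ρ u² > 0` for all nonzero `u ∈ E` -/
def Levels (k : ℕ) (ρ : ℝ → ℝ) : Set ℝ :=
  {Λ | 0 ≤ Λ ∧ ∃ u : Fin (k + 1) → ℂ → ℝ, (∀ i, ContDiff ℝ (⊤ : ℕ∞) (u i)) ∧
    ∀ c : Fin (k + 1) → ℝ, c ≠ 0 → 0 < Bd ρ (fun z => ∑ i, c i * u i z) ∧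
      Dir (fun z => ∑ i, c i * u i z) ≤ Λ * Bd ρ (fun z => ∑ i, c i * u i z)}

/-- the weighted Steklov eigenvalue `λ_k(ρ)` (min-max over `(k+1)`-dimensional spaces) -/
noncomputable def lam (k : ℕ) (ρ : ℝ → ℝ) : ℝ := sInf (Levels k ρ)

/-- the class `𝓐_α` -/
def Adm (α : ℝ) (ρ : ℝ → ℝ) : Prop :=
  Measurable ρ ∧ (∀ᵐ θ ∂(volume.restrict (Ioc (-Real.pi) Real.pi)), 0 ≤ ρ θ ∧ ρ θ ≤ 1) ∧
    ∫ θ in (-Real.pi)..Real.pi, ρ θ = α * (2 * Real.pi)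

/-- the set `𝓘^n_α`: the angles within `πα/n` of some `2πℓ/n` -/
def arcSet (n : ℕ) (α : ℝ) : Set ℝ := {θ | ∃ ℓ : ℤ, |θ - 2 * Real.pi * ℓ / n| ≤ Real.pi * α / n}

/-- the indicator function of `𝓘^n_α` -/
noncomputable def arcs (n : ℕ) (α : ℝ) : ℝ → ℝ := (arcSet n α).indicator fun _ => 1

end Pool.Agent.R223.StkDefs
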