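import Mathlib
import Pool.Agent.R223.Stk.Defs

set_option autoImplicit false
open MeasureTheory Set Real

namespace Pool.Agent.R223.Stk
open Pool.Agent.R223.StkDefs

/-- polar coordinates -/
noncomputable def pt (r θ : ℝ) : ℂ := (r : ℂ) * Complex.exp (θ * Complex.I)

theorem pt_norm (r θ : ℝ) : ‖pt r θ‖ = |r| := by
  unfold pt
  rw [norm_mul, Complex.norm_exp_ofReal_mul_I, mul_one, Complex.norm_real, Real.norm_eq_abs]

theorem pt_cont : Continuous fun p : ℝ × ℝ => pt p.1 p.2 := by unfold pt; fun_prop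

theorem disk_polar (F : ℂ → ℝ) (hF : Continuous F) :
    ∫ z in Metric.ball (0:ℂ) 1, F z = ∫ r in (0:ℝ)..1, ∫ θ in (-π)..π, r * F (pt r θ) := by
  have hc : Continuous fun p : ℝ × ℝ => p.1 * F (pt p.1 p.2) := continuous_fst.mul (hF.comp pt_cont)
  have h1 : ∫ z in Metric.ball (0:ℂ) 1, F z =
      ∫ p in Ioi (0:ℝ) ×ˢ Ioo (-π) π, p.1 * (Metric.ball (0:ℂ) 1).indicator F (pt p.1 p.2) := by
    rw [← integral_indicator Metric.isOpen_ball.measurableSet, ← Complex.integral_comp_polarCoord_symm]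
    refine setIntegral_congr_fun (measurableSet_Ioi.prod measurableSet_Ioo) fun p _ => ?_
    have : Complex.polarCoord.symm p = pt p.1 p.2 := by
      rw [Complex.polarCoord_symm_apply]
      unfold pt
      rw [Complex.exp_mul_I, ← Complex.ofReal_cos, ← Complex.ofReal_sin]
    simp only [this, smul_eq_mul]
  have h2 : ∫ p in Ioi (0:ℝ) ×ˢ Ioo (-π) π, p.1 * (Metric.ball (0:ℂ) 1).indicator F (pt p.1 p.2) =
      ∫ p in Ioo (0:ℝ) 1 ×ˢ Ioo (-π) π, p.1 * (Metric.ball (0:ℂ) 1).indicator F (pt p.1 p.2) := by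
    refine (setIntegral_eq_of_subset_of_forall_sdiff_eq_zero (measurableSet_Ioi.prod measurableSet_Ioo) ?_ ?_)
    · rintro ⟨r, θ⟩ ⟨h1, h2⟩; exact ⟨h1.1, h2⟩
    · rintro ⟨r, θ⟩ ⟨⟨h1, h2⟩, h3⟩
      have hr : 1 ≤ r := by
        by_contra h
        exact h3 ⟨⟨h1, not_le.1 h⟩, h2⟩
      have : pt r θ ∉ Metric.ball (0:ℂ) 1 := by
        rw [mem_ball_zero_iff, pt_norm, abs_of_pos h1]; exact not_lt.2 hr
      simp only [indicator_of_notMem this, mul_zero]
  have h3 : ∫ p in Ioo (0:ℝ) 1 ×ˢ Ioo (-π) π, p.1 * (Metric.ball (0:ℂ) 1).indicator F (pt p.1 p.2) =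
      ∫ p in Ioo (0:ℝ) 1 ×ˢ Ioo (-π) π, p.1 * F (pt p.1 p.2) := by
    refine setIntegral_congr_fun (measurableSet_Ioo.prod measurableSet_Ioo) ?_
    rintro ⟨r, θ⟩ ⟨h1, h2⟩
    have : pt r θ ∈ Metric.ball (0:ℂ) 1 := by
      rw [mem_ball_zero_iff, pt_norm, abs_of_pos h1.1]; exact h1.2
    simp only [indicator_of_mem this]
  have hint : IntegrableOn (fun p : ℝ × ℝ => p.1 * F (pt p.1 p.2)) (Ioo (0:ℝ) 1 ×ˢ Ioo (-π) π)
      (volume.prod volume) := by
    rw [← Measure.volume_eq_prod]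
    exact (hc.continuousOn.integrableOn_compact (isCompact_Icc.prod isCompact_Icc)).mono_set
      (prod_mono Ioo_subset_Icc_self Ioo_subset_Icc_self)
  rw [h1, h2, h3, Measure.volume_eq_prod, setIntegral_prod _ hint]
  rw [intervalIntegral.integral_of_le zero_le_one, integral_Ioc_eq_integral_Ioo]
  refine setIntegral_congr_fun measurableSet_Ioo fun r _ => ?_
  simp only
  rw [intervalIntegral.integral_of_le (by linarith [pi_pos]), integral_Ioc_eq_integral_Ioo]

theorem exp_cs (θ : ℝ) : Complex.exp (θ * Complex.I) = ⟨Real.cos θ, Real.sin θ⟩ := by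
  apply Complex.ext
  · exact Complex.exp_ofReal_mul_I_re θ
  · exact Complex.exp_ofReal_mul_I_im θ

theorem exp_deriv (θ : ℝ) : HasDerivAt (fun θ : ℝ => Complex.exp (θ * Complex.I))
    (Complex.exp (θ * Complex.I) * Complex.I) θ := by
  have h : HasDerivAt (fun z : ℂ => Complex.exp (z * Complex.I)) (Complex.exp (θ * Complex.I) * Complex.I) (θ : ℂ) := by
    have := ((hasDerivAt_id (θ : ℂ)).mul_const Complex.I).cexp
    simpa using this
  exact h.comp_ofReal

theorem pt_dr (r θ : ℝ) : HasDerivAt (fun r => pt r θ) (Complex.exp (θ * Complex.I)) r := by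
  have h : HasDerivAt (fun r : ℝ => (r : ℂ)) 1 r := Complex.ofRealCLM.hasDerivAt
  have := h.mul_const (Complex.exp (θ * Complex.I))
  rwa [one_mul] at this

theorem pt_dθ (r θ : ℝ) : HasDerivAt (fun θ => pt r θ) (pt r θ * Complex.I) θ := by
  have := (exp_deriv θ).const_mul (r : ℂ)
  unfold pt
  rwa [← mul_assoc] at this

theorem lin_re_im (L : ℂ →L[ℝ] ℝ) (w : ℂ) : L w = L 1 * w.re + L Complex.I * w.im := by
  have h : w = w.re • (1:ℂ) + w.im • Complex.I := by
    apply Complex.ext <;> simp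
  conv_lhs => rw [h]
  rw [map_add, map_smul, map_smul, smul_eq_mul, smul_eq_mul]
  ring

theorem pt_smooth : ContDiff ℝ (⊤ : ℕ∞) fun p : ℝ × ℝ => pt p.1 p.2 := by
  unfold pt
  have h1 : ContDiff ℝ (⊤ : ℕ∞) fun p : ℝ × ℝ => (p.1 : ℂ) := Complex.ofRealCLM.contDiff.comp contDiff_fst
  have h2 : ContDiff ℝ (⊤ : ℕ∞) fun p : ℝ × ℝ => (p.2 : ℂ) := Complex.ofRealCLM.contDiff.comp contDiff_snd
  exact h1.mul ((h2.mul contDiff_const).cexp)

/-- Green's formula against a harmonic monomial -/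
theorem green (u : ℂ → ℝ) (hu : ContDiff ℝ (⊤ : ℕ∞) u) (m : ℕ) (q : ℂ) :
    ∫ z in Metric.ball (0:ℂ) 1, (fderiv ℝ u z 1 * (((m:ℂ) + 1) * q * z ^ m).re -
      fderiv ℝ u z Complex.I * (((m:ℂ) + 1) * q * z ^ m).im) =
    ((m:ℝ) + 1) * ∫ θ in (-π)..π, u (Complex.exp (θ * Complex.I)) *
      (q * Complex.exp (θ * Complex.I) ^ (m + 1)).re := by
  have hud : Differentiable ℝ u := hu.differentiable (by simp)
  have hcf : Continuous (fderiv ℝ u) := hu.continuous_fderiv (by simp)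
  have hF : Continuous fun z : ℂ => (fderiv ℝ u z 1 * (((m:ℂ) + 1) * q * z ^ m).re -
      fderiv ℝ u z Complex.I * (((m:ℂ) + 1) * q * z ^ m).im) := by
    have h1 : Continuous fun z : ℂ => (((m:ℂ) + 1) * q * z ^ m) := by fun_prop
    exact ((hcf.clm_apply continuous_const).mul (Complex.continuous_re.comp h1)).sub
      ((hcf.clm_apply continuous_const).mul (Complex.continuous_im.comp h1))
  rw [disk_polar _ hF]
  set f : ℝ × ℝ → ℝ := fun p => u (pt p.1 p.2) * (q * pt p.1 p.2 ^ (m + 1)).re with hf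
  set g : ℝ × ℝ → ℝ := fun p => -(u (pt p.1 p.2) * (p.1 ^ m * (q * Complex.exp (p.2 * Complex.I) ^ (m + 1)).im)) with hg
  have hfs : ContDiff ℝ (⊤ : ℕ∞) f := by
    refine (hu.comp pt_smooth).mul ?_
    exact Complex.reCLM.contDiff.comp (contDiff_const.mul (pt_smooth.pow _))
  have hgs : ContDiff ℝ (⊤ : ℕ∞) g := by
    refine ((hu.comp pt_smooth).mul ((contDiff_fst.pow _).mul ?_)).neg
    have h2 : ContDiff ℝ (⊤ : ℕ∞) fun p : ℝ × ℝ => (p.2 : ℂ) := Complex.ofRealCLM.contDiff.comp contDiff_snd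
    exact Complex.imCLM.contDiff.comp (contDiff_const.mul (((h2.mul contDiff_const).cexp).pow _))
  have hfd : Differentiable ℝ f := hfs.differentiable (by simp)
  have hgd : Differentiable ℝ g := hgs.differentiable (by simp)
  have hdiv := integral2_divergence_prod_of_hasFDerivAt f g (fderiv ℝ f) (fderiv ℝ g) 0 (-π) 1 π
    hfs.continuous.continuousOn hgs.continuous.continuousOn
    (fun x _ => (hfd x).hasFDerivAt) (fun x _ => (hgd x).hasFDerivAt)
    (by
      refine ContinuousOn.integrableOn_compact (isCompact_uIcc.prod isCompact_uIcc) ?_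
      exact (((hfs.continuous_fderiv (by simp)).clm_apply continuous_const).add
        ((hgs.continuous_fderiv (by simp)).clm_apply continuous_const)).continuousOn)
  have hpt : ∀ r θ : ℝ, r * (fderiv ℝ u (pt r θ) 1 * (((m:ℂ) + 1) * q * pt r θ ^ m).re -
      fderiv ℝ u (pt r θ) Complex.I * (((m:ℂ) + 1) * q * pt r θ ^ m).im) =
      ((m:ℝ) + 1) * (fderiv ℝ f (r, θ) (1, 0) + fderiv ℝ g (r, θ) (0, 1)) := by
    intro r θ
    set L := fderiv ℝ u (pt r θ) with hL
    have hcurve1 : HasDerivAt (fun t : ℝ => ((t, θ) : ℝ × ℝ)) (1, 0) r :=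
      (hasDerivAt_id r).prodMk (hasDerivAt_const r θ)
    have hcurve2 : HasDerivAt (fun t : ℝ => ((r, t) : ℝ × ℝ)) (0, 1) θ :=
      (hasDerivAt_const θ r).prodMk (hasDerivAt_id θ)
    have hf1 : HasFDerivAt f (fderiv ℝ f (r, θ)) (r, θ) := (hfd (r, θ)).hasFDerivAt
    have hg1 : HasFDerivAt g (fderiv ℝ g (r, θ)) (r, θ) := (hgd (r, θ)).hasFDerivAt
    have e1 : HasDerivAt (f ∘ fun t : ℝ => ((t, θ) : ℝ × ℝ)) (fderiv ℝ f (r, θ) (1, 0)) r :=
      HasFDerivAt.comp_hasDerivAt r hf1 hcurve1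
    have e2 : HasDerivAt (g ∘ fun t : ℝ => ((r, t) : ℝ × ℝ)) (fderiv ℝ g (r, θ) (0, 1)) θ :=
      HasFDerivAt.comp_hasDerivAt θ hg1 hcurve2
    have u1 : HasDerivAt (fun t => u (pt t θ)) (L (Complex.exp (θ * Complex.I))) r :=
      (hud (pt r θ)).hasFDerivAt.comp_hasDerivAt r (pt_dr r θ)
    have u2 : HasDerivAt (fun t => u (pt r t)) (L (pt r θ * Complex.I)) θ :=
      (hud (pt r θ)).hasFDerivAt.comp_hasDerivAt θ (pt_dθ r θ)
    have p1 : HasDerivAt (fun t => (q * pt t θ ^ (m + 1)).re)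
        ((q * (((m + 1 : ℕ) : ℂ) * pt r θ ^ m * Complex.exp (θ * Complex.I))).re) r := by
      have h := ((pt_dr r θ).pow (m + 1)).const_mul q
      rw [Nat.add_sub_cancel] at h
      exact Complex.reCLM.hasFDerivAt.comp_hasDerivAt r h
    have p2 : HasDerivAt (fun t : ℝ => (q * Complex.exp (t * Complex.I) ^ (m + 1)).im)
        ((q * (((m + 1 : ℕ) : ℂ) * Complex.exp (θ * Complex.I) ^ m * (Complex.exp (θ * Complex.I) * Complex.I))).im) θ := by
      have h := ((exp_deriv θ).pow (m + 1)).const_mul q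
      rw [Nat.add_sub_cancel] at h
      exact Complex.imCLM.hasFDerivAt.comp_hasDerivAt θ h
    have e1' := (u1.mul p1).unique e1
    have e2' := ((u2.mul (p2.const_mul (r ^ m))).neg).unique e2
    rw [← e1', ← e2']
    have hE := exp_cs θ
    set E := Complex.exp (θ * Complex.I) with hEdef
    have hptE : pt r θ = (r:ℂ) * E := rfl
    rw [lin_re_im L E, lin_re_im L (pt r θ * Complex.I), hptE]
    set X : ℂ := q * E ^ m with hX
    have hc2 : E.re ^ 2 + E.im ^ 2 = 1 := by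
      rw [hE]; exact Real.cos_sq_add_sin_sq θ
    have a1 : ((m:ℂ) + 1) * q * ((r:ℂ) * E) ^ m = ((((m:ℝ) + 1) * r ^ m : ℝ) : ℂ) * X := by
      rw [hX, mul_pow]; push_cast; ring
    have a2 : q * ((r:ℂ) * E) ^ (m + 1) = ((r ^ (m + 1) : ℝ) : ℂ) * (X * E) := by
      rw [hX, mul_pow]; push_cast; ring
    have a3 : q * (((m + 1 : ℕ) : ℂ) * ((r:ℂ) * E) ^ m * E) = ((((m:ℝ) + 1) * r ^ m : ℝ) : ℂ) * (X * E) := by
      rw [hX, mul_pow]; push_cast; ring
    have a4 : q * E ^ (m + 1) = X * E := by rw [hX]; ring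
    have a5 : q * (((m + 1 : ℕ) : ℂ) * E ^ m * (E * Complex.I)) = (((m:ℝ) + 1 : ℝ) : ℂ) * (X * E * Complex.I) := by
      rw [hX]; push_cast; ring
    rw [a1, a2, a3, a4, a5]
    simp only [Complex.mul_re, Complex.mul_im, Complex.ofReal_re, Complex.ofReal_im, Complex.I_re, Complex.I_im]
    linear_combination (-(((m:ℝ) + 1) * r ^ (m + 1)) * (L 1 * X.re - L Complex.I * X.im)) * hc2
  have hleft : ∫ r in (0:ℝ)..1, ∫ θ in (-π)..π, r * (fderiv ℝ u (pt r θ) 1 * (((m:ℂ) + 1) * q * pt r θ ^ m).re -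
      fderiv ℝ u (pt r θ) Complex.I * (((m:ℂ) + 1) * q * pt r θ ^ m).im) =
      ((m:ℝ) + 1) * ∫ r in (0:ℝ)..1, ∫ θ in (-π)..π, (fderiv ℝ f (r, θ) (1, 0) + fderiv ℝ g (r, θ) (0, 1)) := by
    simp only [hpt]
    rw [← intervalIntegral.integral_const_mul]
    simp only [intervalIntegral.integral_const_mul]
  rw [hleft, hdiv]
  have b1 : ∀ r : ℝ, g (r, π) = g (r, -π) := by
    intro r
    have h1 : Complex.exp ((π : ℂ) * Complex.I) = -1 := Complex.exp_pi_mul_I
    have h2 : Complex.exp (((-π : ℝ) : ℂ) * Complex.I) = -1 := by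
      rw [Complex.ofReal_neg, neg_mul, Complex.exp_neg, h1]; norm_num
    simp only [hg, pt, h1, h2]
  have b2 : ∀ θ : ℝ, f (0, θ) = 0 := by
    intro θ
    simp [hf, pt]
  have b3 : ∀ θ : ℝ, f (1, θ) = u (Complex.exp (θ * Complex.I)) * (q * Complex.exp (θ * Complex.I) ^ (m + 1)).re := by
    intro θ
    simp only [hf, pt, Complex.ofReal_one, one_mul]
  simp only [b1, b2, b3, sub_self, zero_add, intervalIntegral.integral_zero, sub_zero]

end Pool.Agent.R223.Stk
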