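import Mathlib
import Pool.Agent.R223.Stk.Green

set_option autoImplicit false
open MeasureTheory Set Real
open scoped ComplexConjugate

namespace Pool.Agent.R223.Stk
open Pool.Agent.R223.StkDefs

/-- exponentials -/
noncomputable def ex (k : ℤ) (θ : ℝ) : ℂ := Complex.exp ((k : ℂ) * θ * Complex.I)

theorem ex_cont (k : ℤ) : Continuous (ex k) := by unfold ex; fun_prop

theorem ex_norm (k : ℤ) (θ : ℝ) : ‖ex k θ‖ = 1 := by
  unfold ex
  have : (k : ℂ) * θ * Complex.I = ((k * θ : ℝ) : ℂ) * Complex.I := by push_cast; ring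
  rw [this, Complex.norm_exp_ofReal_mul_I]

theorem ex_add (j k : ℤ) (θ : ℝ) : ex (j + k) θ = ex j θ * ex k θ := by
  unfold ex
  rw [← Complex.exp_add]
  congr 1; push_cast; ring

theorem ex_conj (k : ℤ) (θ : ℝ) : conj (ex k θ) = ex (-k) θ := by
  unfold ex
  rw [← Complex.exp_conj]
  congr 1
  simp

theorem ex_zero (θ : ℝ) : ex 0 θ = 1 := by simp [ex]

theorem ex_pow (n : ℕ) (θ : ℝ) : Complex.exp (θ * Complex.I) ^ n = ex n θ := by
  unfold ex
  rw [← Complex.exp_nat_mul]
  congr 1; push_cast; ring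

theorem ex_int (k : ℤ) : ∫ θ in (-π)..π, ex k θ = if k = 0 then (2 * π : ℂ) else 0 := by
  split_ifs with h
  · subst h
    simp only [ex_zero, intervalIntegral.integral_const]
    rw [Complex.real_smul]
    push_cast; ring
  · unfold ex
    have hk : (k : ℂ) * Complex.I ≠ 0 := mul_ne_zero (by exact_mod_cast h) Complex.I_ne_zero
    have h1 : ∀ θ : ℝ, (k : ℂ) * θ * Complex.I = (k : ℂ) * Complex.I * θ := fun θ => by ring
    simp only [h1]
    rw [integral_exp_mul_complex hk]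
    have h2 : Complex.exp ((k : ℂ) * Complex.I * (π : ℝ)) = Complex.exp ((k : ℂ) * Complex.I * ((-π : ℝ) : ℂ)) := by
      rw [Complex.exp_eq_exp_iff_exists_int]
      refine ⟨k, ?_⟩
      push_cast; ring
    rw [h2, sub_self, zero_div]

/-- Fourier coefficients -/
noncomputable def cf (f : ℝ → ℝ) (n : ℤ) : ℂ := (1 / (2 * π) : ℝ) * ∫ θ in (-π)..π, (f θ : ℂ) * ex (-n) θ

/-- bounded measurable functions -/
def BM (f : ℝ → ℝ) : Prop := Measurable f ∧ ∃ C : ℝ, ∀ θ, |f θ| ≤ C

theorem BM.add {f g : ℝ → ℝ} (hf : BM f) (hg : BM g) : BM (fun θ => f θ + g θ) := by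
  obtain ⟨m1, C1, h1⟩ := hf
  obtain ⟨m2, C2, h2⟩ := hg
  exact ⟨m1.add m2, C1 + C2, fun θ => (abs_add_le _ _).trans (add_le_add (h1 θ) (h2 θ))⟩

theorem BM.sub {f g : ℝ → ℝ} (hf : BM f) (hg : BM g) : BM (fun θ => f θ - g θ) := by
  obtain ⟨m1, C1, h1⟩ := hf
  obtain ⟨m2, C2, h2⟩ := hg
  exact ⟨m1.sub m2, C1 + C2, fun θ => (abs_sub _ _).trans (add_le_add (h1 θ) (h2 θ))⟩

theorem BM.mul {f g : ℝ → ℝ} (hf : BM f) (hg : BM g) : BM (fun θ => f θ * g θ) := by
  obtain ⟨m1, C1, h1⟩ := hf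
  obtain ⟨m2, C2, h2⟩ := hg
  refine ⟨m1.mul m2, C1 * C2, fun θ => ?_⟩
  rw [abs_mul]
  exact mul_le_mul (h1 θ) (h2 θ) (abs_nonneg _) ((abs_nonneg _).trans (h1 θ))

theorem BM.int {f : ℝ → ℝ} (hf : BM f) (a b : ℝ) : IntervalIntegrable f volume a b := by
  obtain ⟨m1, C1, h1⟩ := hf
  rw [intervalIntegrable_iff]
  exact Measure.integrableOn_of_bounded (by simp) m1.aestronglyMeasurable (Filter.Eventually.of_forall h1)

theorem BM.cint {f : ℝ → ℝ} (hf : BM f) (k : ℤ) (a b : ℝ) :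
    IntervalIntegrable (fun θ => (f θ : ℂ) * ex k θ) volume a b := by
  obtain ⟨m1, C1, h1⟩ := hf
  rw [intervalIntegrable_iff]
  refine Measure.integrableOn_of_bounded (M := C1) (by simp)
    ((Complex.measurable_ofReal.comp m1).mul (ex_cont k).measurable).aestronglyMeasurable
    (Filter.Eventually.of_forall fun θ => ?_)
  rw [norm_mul, ex_norm, mul_one, Complex.norm_real]
  exact h1 θ

theorem cf_add {f g : ℝ → ℝ} (hf : BM f) (hg : BM g) (n : ℤ) :
    cf (fun θ => f θ + g θ) n = cf f n + cf g n := by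
  unfold cf
  rw [← mul_add, ← intervalIntegral.integral_add (hf.cint _ _ _) (hg.cint _ _ _)]
  congr 1
  refine intervalIntegral.integral_congr fun θ _ => ?_
  push_cast; ring

theorem cf_sub {f g : ℝ → ℝ} (hf : BM f) (hg : BM g) (n : ℤ) :
    cf (fun θ => f θ - g θ) n = cf f n - cf g n := by
  unfold cf
  rw [← mul_sub, ← intervalIntegral.integral_sub (hf.cint _ _ _) (hg.cint _ _ _)]
  congr 1
  refine intervalIntegral.integral_congr fun θ _ => ?_
  push_cast; ring

theorem cf_neg (f : ℝ → ℝ) (n : ℤ) : cf f (-n) = conj (cf f n) := by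
  unfold cf
  rw [map_mul, Complex.conj_ofReal]
  congr 1
  have h2 : conj (∫ θ in (-π)..π, (f θ : ℂ) * ex (-n) θ) = ∫ θ in (-π)..π, conj ((f θ : ℂ) * ex (-n) θ) := by
    rw [intervalIntegral.integral_of_le (by linarith [pi_pos]), intervalIntegral.integral_of_le (by linarith [pi_pos])]
    exact integral_conj.symm
  rw [h2]
  refine intervalIntegral.integral_congr fun θ _ => ?_
  simp only [map_mul, Complex.conj_ofReal, ex_conj]

theorem negpi : -π < π := by linarith [pi_pos]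

theorem cf_eq (f : ℝ → ℝ) (n : ℤ) : cf f n = fourierCoeffOn negpi (fun θ => (f θ : ℂ)) n := by
  rw [fourierCoeffOn_eq_integral, Complex.real_smul]
  unfold cf
  have e : (π - -π) = 2 * π := by ring
  congr 1
  · rw [e]
  · refine intervalIntegral.integral_congr fun θ _ => ?_
    simp only [smul_eq_mul]
    rw [mul_comm, fourier_coe_apply]
    congr 1
    unfold ex
    congr 1
    rw [e]
    have hpi : (π : ℂ) ≠ 0 := by exact_mod_cast pi_ne_zero
    push_cast
    field_simp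

/-- Parseval -/
theorem parseval {f : ℝ → ℝ} (hf : BM f) :
    HasSum (fun n : ℤ => ‖cf f n‖ ^ 2) ((2 * π)⁻¹ * ∫ θ in (-π)..π, f θ ^ 2) := by
  have hL2 : MemLp (fun θ => (f θ : ℂ)) 2 (volume.restrict (Ioc (-π) π)) := by
    obtain ⟨m1, C1, h1⟩ := hf
    refine MemLp.of_bound (Complex.measurable_ofReal.comp m1).aestronglyMeasurable C1
      (Filter.Eventually.of_forall fun θ => ?_)
    rw [Complex.norm_real]; exact h1 θ
  have h := hasSum_sq_fourierCoeffOn negpi hL2
  have e : (π - -π) = 2 * π := by ring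
  simp only [← cf_eq, e, smul_eq_mul, Complex.norm_real, Real.norm_eq_abs, sq_abs] at h
  exact h

/-- Parseval for two functions -/
theorem parseval2 {f g : ℝ → ℝ} (hf : BM f) (hg : BM g) :
    HasSum (fun n : ℤ => (cf f n * conj (cf g n)).re) ((2 * π)⁻¹ * ∫ θ in (-π)..π, f θ * g θ) := by
  have h1 := parseval (hf.add hg)
  have h2 := parseval (hf.sub hg)
  have h3 := (h1.sub h2).mul_left (1 / 4)
  have e1 : ∀ n : ℤ, 1 / 4 * (‖cf (fun θ => f θ + g θ) n‖ ^ 2 - ‖cf (fun θ => f θ - g θ) n‖ ^ 2) =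
      (cf f n * conj (cf g n)).re := by
    intro n
    rw [cf_add hf hg, cf_sub hf hg, ← Complex.normSq_eq_norm_sq, ← Complex.normSq_eq_norm_sq]
    simp only [Complex.normSq_apply, Complex.add_re, Complex.add_im, Complex.sub_re, Complex.sub_im,
      Complex.mul_re, Complex.conj_re, Complex.conj_im]
    ring
  simp only [e1] at h3
  have i1 : IntervalIntegrable (fun θ => (f θ + g θ) ^ 2) volume (-π) π := by
    have := ((hf.add hg).mul (hf.add hg)).int (-π) π
    simpa only [sq] using this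
  have i2 : IntervalIntegrable (fun θ => (f θ - g θ) ^ 2) volume (-π) π := by
    have := ((hf.sub hg).mul (hf.sub hg)).int (-π) π
    simpa only [sq] using this
  have e2 : (2 * π)⁻¹ * ∫ θ in (-π)..π, f θ * g θ =
      1 / 4 * (((2 * π)⁻¹ * ∫ θ in (-π)..π, (f θ + g θ) ^ 2) - (2 * π)⁻¹ * ∫ θ in (-π)..π, (f θ - g θ) ^ 2) := by
    rw [← mul_sub, ← intervalIntegral.integral_sub i1 i2]
    have e3 : ∫ θ in (-π)..π, ((f θ + g θ) ^ 2 - (f θ - g θ) ^ 2) = 4 * ∫ θ in (-π)..π, f θ * g θ := by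
      rw [← intervalIntegral.integral_const_mul]
      refine intervalIntegral.integral_congr fun θ _ => ?_
      ring
    rw [e3]; ring
  rw [e2]
  exact h3

end Pool.Agent.R223.Stk
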