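import Mathlib
import Pool.Agent.R223.Stk.Four

set_option autoImplicit false
open MeasureTheory Set Real
open scoped ComplexConjugate

namespace Pool.Agent.R223.Stk
open Pool.Agent.R223.StkDefs

/-- boundary values -/
noncomputable def bd (u : ℂ → ℝ) (θ : ℝ) : ℝ := u (Complex.exp (θ * Complex.I))

theorem bd_cont {u : ℂ → ℝ} (hu : Continuous u) : Continuous (bd u) := by
  unfold bd
  exact hu.comp (by fun_prop)

theorem bd_BM {u : ℂ → ℝ} (hu : Continuous u) : BM (bd u) := by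
  refine ⟨(bd_cont hu).measurable, ?_⟩
  obtain ⟨C, hC⟩ := (isCompact_closedBall (0:ℂ) 1).exists_bound_of_continuousOn hu.continuousOn
  refine ⟨C, fun θ => hC _ ?_⟩
  rw [mem_closedBall_zero_iff, Complex.norm_exp_ofReal_mul_I]

/-- bilinear Dirichlet form -/
noncomputable def B (u v : ℂ → ℝ) : ℝ := ∫ z in Metric.ball (0:ℂ) 1,
  (fderiv ℝ u z 1 * fderiv ℝ v z 1 + fderiv ℝ u z Complex.I * fderiv ℝ v z Complex.I)

/-- harmonic polynomials -/
noncomputable def harm (q : ℕ → ℂ) (N : ℕ) (z : ℂ) : ℝ := ∑ m ∈ Finset.range N, (q m * z ^ (m + 1)).re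

theorem harm_smooth (q : ℕ → ℂ) (N : ℕ) : ContDiff ℝ (⊤ : ℕ∞) (harm q N) := by
  unfold harm
  refine ContDiff.sum fun m _ => ?_
  exact Complex.reCLM.contDiff.comp (contDiff_const.mul (contDiff_id.pow _))

theorem harm_fderiv (q : ℕ → ℂ) (N : ℕ) (z w : ℂ) :
    fderiv ℝ (harm q N) z w = ∑ m ∈ Finset.range N, (((m:ℂ) + 1) * q m * z ^ m * w).re := by
  have h1 : ∀ m ∈ Finset.range N, HasFDerivAt (fun z : ℂ => (q m * z ^ (m + 1)).re)
      (Complex.reCLM.comp (((q m * (((m + 1 : ℕ) : ℂ) * z ^ m)) • (1 : ℂ →L[ℂ] ℂ)).restrictScalars ℝ)) z := by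
    intro m _
    have h := ((hasDerivAt_pow (m + 1) z).const_mul (q m))
    rw [Nat.add_sub_cancel] at h
    have h2 := h.hasFDerivAt.restrictScalars ℝ
    have h3 := Complex.reCLM.hasFDerivAt.comp z h2
    refine h3.congr_fderiv ?_
    ext w <;> simp [mul_comm]
  have h2 := HasFDerivAt.fun_sum h1
  have h3 : fderiv ℝ (harm q N) z = _ := h2.fderiv
  rw [h3]
  rw [sum_apply]
  refine Finset.sum_congr rfl fun m _ => ?_
  simp only [ContinuousLinearMap.comp_apply, ContinuousLinearMap.coe_restrictScalars',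
    smul_apply, one_apply_eq_self, smul_eq_mul, Complex.reCLM_apply]
  congr 1
  push_cast; ring

theorem cont_int {F : ℂ → ℝ} (hF : Continuous F) : IntegrableOn F (Metric.ball (0:ℂ) 1) :=
  (hF.continuousOn.integrableOn_compact (isCompact_closedBall 0 1)).mono_set Metric.ball_subset_closedBall

theorem cfd {u : ℂ → ℝ} (hu : ContDiff ℝ (⊤ : ℕ∞) u) (w : ℂ) : Continuous fun z => fderiv ℝ u z w :=
  (hu.continuous_fderiv (by simp)).clm_apply continuous_const

/-- Green's formula with Fourier coefficients -/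
theorem green_cf (u : ℂ → ℝ) (hu : ContDiff ℝ (⊤ : ℕ∞) u) (m : ℕ) (q : ℂ) :
    ∫ θ in (-π)..π, u (Complex.exp (θ * Complex.I)) * (q * Complex.exp (θ * Complex.I) ^ (m + 1)).re =
      2 * π * (q * conj (cf (bd u) ((m : ℤ) + 1))).re := by
  rw [← cf_neg]
  unfold cf
  have h1 : ∀ θ : ℝ, u (Complex.exp (θ * Complex.I)) * (q * Complex.exp (θ * Complex.I) ^ (m + 1)).re =
      (q * ((bd u θ : ℂ) * ex (-(-((m : ℤ) + 1))) θ)).re := by
    intro θ
    rw [ex_pow, neg_neg]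
    have : q * ((bd u θ : ℂ) * ex ((m : ℤ) + 1) θ) = ((bd u θ : ℝ) : ℂ) * (q * ex ((m : ℤ) + 1) θ) := by ring
    rw [this, Complex.re_ofReal_mul]
    push_cast
    rfl
  simp only [h1]
  have h2 : ∫ θ in (-π)..π, (q * ((bd u θ : ℂ) * ex (-(-((m : ℤ) + 1))) θ)).re =
      (∫ θ in (-π)..π, q * ((bd u θ : ℂ) * ex (-(-((m : ℤ) + 1))) θ)).re := by
    have := (Complex.reCLM).intervalIntegral_comp_comm (a := -π) (b := π) (μ := volume)
      (((bd_BM hu.continuous).cint (-(-((m : ℤ) + 1))) (-π) π).const_mul q)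
    exact this
  rw [h2, intervalIntegral.integral_const_mul]
  have h3 : ∀ X : ℂ, q * (((1 / (2 * π) : ℝ) : ℂ) * X) = ((1 / (2 * π) : ℝ) : ℂ) * (q * X) := fun X => by ring
  rw [h3, Complex.re_ofReal_mul]
  field_simp

theorem B_harm (u : ℂ → ℝ) (hu : ContDiff ℝ (⊤ : ℕ∞) u) (q : ℕ → ℂ) (N : ℕ) :
    B u (harm q N) = 2 * π * ∑ m ∈ Finset.range N, ((m:ℝ) + 1) * (q m * conj (cf (bd u) ((m : ℤ) + 1))).re := by
  unfold B
  have h1 : ∀ z : ℂ, (fderiv ℝ u z 1 * fderiv ℝ (harm q N) z 1 +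
      fderiv ℝ u z Complex.I * fderiv ℝ (harm q N) z Complex.I) =
      ∑ m ∈ Finset.range N, (fderiv ℝ u z 1 * (((m:ℂ) + 1) * q m * z ^ m).re -
        fderiv ℝ u z Complex.I * (((m:ℂ) + 1) * q m * z ^ m).im) := by
    intro z
    rw [harm_fderiv, harm_fderiv, Finset.mul_sum, Finset.mul_sum, ← Finset.sum_add_distrib]
    refine Finset.sum_congr rfl fun m _ => ?_
    simp only [mul_one, Complex.mul_I_re]
    ring
  simp only [h1]
  rw [integral_finsetSum]
  · rw [Finset.mul_sum]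
    refine Finset.sum_congr rfl fun m _ => ?_
    rw [green u hu m (q m), green_cf u hu]
    ring
  · intro m _
    refine cont_int ?_
    have h1 : Continuous fun z : ℂ => (((m:ℂ) + 1) * q m * z ^ m) := by fun_prop
    exact ((cfd hu 1).mul (Complex.continuous_re.comp h1)).sub ((cfd hu _).mul (Complex.continuous_im.comp h1))

theorem bd_harm (q : ℕ → ℂ) (N : ℕ) (θ : ℝ) : bd (harm q N) θ =
    ∑ m ∈ Finset.range N, (q m * ex ((m : ℤ) + 1) θ).re := by
  unfold bd harm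
  refine Finset.sum_congr rfl fun m _ => ?_
  rw [ex_pow]; push_cast; rfl

theorem cf_harm (q : ℕ → ℂ) (N : ℕ) (n : ℤ) : cf (bd (harm q N)) n =
    ∑ m ∈ Finset.range N, ((if (m : ℤ) + 1 - n = 0 then q m / 2 else 0) +
      (if -((m : ℤ) + 1) - n = 0 then conj (q m) / 2 else 0)) := by
  unfold cf
  have h1 : ∀ θ : ℝ, (bd (harm q N) θ : ℂ) * ex (-n) θ =
      ∑ m ∈ Finset.range N, (q m / 2 * ex ((m : ℤ) + 1 - n) θ + conj (q m) / 2 * ex (-((m : ℤ) + 1) - n) θ) := by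
    intro θ
    rw [bd_harm, Complex.ofReal_sum, Finset.sum_mul]
    refine Finset.sum_congr rfl fun m _ => ?_
    have a1 : ex ((m : ℤ) + 1 - n) θ = ex ((m : ℤ) + 1) θ * ex (-n) θ := by
      rw [sub_eq_add_neg, ex_add ((m : ℤ) + 1) (-n)]
    have a2 : ex (-((m : ℤ) + 1) - n) θ = ex (-((m : ℤ) + 1)) θ * ex (-n) θ := by
      rw [sub_eq_add_neg, ex_add (-((m : ℤ) + 1)) (-n)]
    rw [Complex.re_eq_add_conj, map_mul, ex_conj, a1, a2]
    ring
  simp only [h1]
  rw [intervalIntegral.integral_finsetSum]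
  · rw [Finset.mul_sum]
    refine Finset.sum_congr rfl fun m _ => ?_
    rw [intervalIntegral.integral_add (((ex_cont _).const_mul _).intervalIntegrable _ _)
      (((ex_cont _).const_mul _).intervalIntegrable _ _), intervalIntegral.integral_const_mul,
      intervalIntegral.integral_const_mul, ex_int, ex_int]
    have hpi : (π : ℂ) ≠ 0 := by exact_mod_cast pi_ne_zero
    push_cast
    split_ifs <;> field_simp <;> simp
  · intro m _
    exact ((((ex_cont _).const_mul _).add ((ex_cont _).const_mul _))).intervalIntegrable _ _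

theorem cf_harm_pos (q : ℕ → ℂ) (N j : ℕ) : cf (bd (harm q N)) ((j : ℤ) + 1) =
    if j < N then q j / 2 else 0 := by
  rw [cf_harm]
  have h1 : ∀ m ∈ Finset.range N, ((if (m : ℤ) + 1 - ((j : ℤ) + 1) = 0 then q m / 2 else 0) +
      (if -((m : ℤ) + 1) - ((j : ℤ) + 1) = 0 then conj (q m) / 2 else 0)) = if m = j then q m / 2 else 0 := by
    intro m _
    have e1 : ((m : ℤ) + 1 - ((j : ℤ) + 1) = 0) ↔ m = j := by omega
    have e2 : ¬ (-((m : ℤ) + 1) - ((j : ℤ) + 1) = 0) := by omega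
    rw [if_neg e2, add_zero]
    simp only [e1]
  rw [Finset.sum_congr rfl h1]
  simp [Finset.mem_range]

theorem cf_harm_zero (q : ℕ → ℂ) (N : ℕ) : cf (bd (harm q N)) 0 = 0 := by
  rw [cf_harm]
  refine Finset.sum_eq_zero fun m _ => ?_
  have e1 : ¬ ((m : ℤ) + 1 - 0 = 0) := by omega
  have e2 : ¬ (-((m : ℤ) + 1) - 0 = 0) := by omega
  rw [if_neg e1, if_neg e2, add_zero]

theorem dir_harm (q : ℕ → ℂ) (N : ℕ) : Dir (harm q N) = π * ∑ m ∈ Finset.range N, ((m:ℝ) + 1) * ‖q m‖ ^ 2 := by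
  have h1 : Dir (harm q N) = B (harm q N) (harm q N) := by
    unfold Dir B
    simp only [sq]
  rw [h1, B_harm _ (harm_smooth q N), Finset.mul_sum, Finset.mul_sum]
  refine Finset.sum_congr rfl fun m hm => ?_
  rw [cf_harm_pos, if_pos (Finset.mem_range.1 hm)]
  have : (q m * conj (q m / 2)).re = ‖q m‖ ^ 2 / 2 := by
    rw [map_div₀, Complex.conj_ofNat, ← mul_div_assoc, Complex.mul_conj, ← Complex.normSq_eq_norm_sq]
    have : ((Complex.normSq (q m) : ℂ) / 2) = ((Complex.normSq (q m) / 2 : ℝ) : ℂ) := by push_cast; ring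
    rw [this, Complex.ofReal_re]
  rw [this]
  ring

theorem dir_lower (u : ℂ → ℝ) (hu : ContDiff ℝ (⊤ : ℕ∞) u) (N : ℕ) :
    4 * π * ∑ m ∈ Finset.range N, ((m:ℝ) + 1) * ‖cf (bd u) ((m : ℤ) + 1)‖ ^ 2 ≤ Dir u := by
  set q : ℕ → ℂ := fun m => 2 * cf (bd u) ((m : ℤ) + 1) with hq
  have hh := harm_smooth q N
  have hB := B_harm u hu q N
  have hD := dir_harm q N
  have e1 : ∀ m ∈ Finset.range N, ((m:ℝ) + 1) * (q m * conj (cf (bd u) ((m : ℤ) + 1))).re =
      2 * (((m:ℝ) + 1) * ‖cf (bd u) ((m : ℤ) + 1)‖ ^ 2) := by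
    intro m _
    have : (q m * conj (cf (bd u) ((m : ℤ) + 1))) = ((2 * ‖cf (bd u) ((m : ℤ) + 1)‖ ^ 2 : ℝ) : ℂ) := by
      simp only [hq]
      rw [mul_assoc, Complex.mul_conj, Complex.normSq_eq_norm_sq]; push_cast; ring
    rw [this, Complex.ofReal_re]; ring
  have e2 : ∀ m ∈ Finset.range N, ((m:ℝ) + 1) * ‖q m‖ ^ 2 = 4 * (((m:ℝ) + 1) * ‖cf (bd u) ((m : ℤ) + 1)‖ ^ 2) := by
    intro m _
    simp only [hq]
    rw [norm_mul, Complex.norm_ofNat]; ring
  rw [Finset.sum_congr rfl e1, ← Finset.mul_sum] at hB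
  rw [Finset.sum_congr rfl e2, ← Finset.mul_sum] at hD
  have h0 : 0 ≤ ∫ z in Metric.ball (0:ℂ) 1, ((fderiv ℝ u z 1 - fderiv ℝ (harm q N) z 1) ^ 2 +
      (fderiv ℝ u z Complex.I - fderiv ℝ (harm q N) z Complex.I) ^ 2) :=
    integral_nonneg fun z => by positivity
  have h1 : ∫ z in Metric.ball (0:ℂ) 1, ((fderiv ℝ u z 1 - fderiv ℝ (harm q N) z 1) ^ 2 +
      (fderiv ℝ u z Complex.I - fderiv ℝ (harm q N) z Complex.I) ^ 2) =
      Dir u - 2 * B u (harm q N) + Dir (harm q N) := by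
    have i1 : IntegrableOn (fun z => (fderiv ℝ u z 1) ^ 2 + (fderiv ℝ u z Complex.I) ^ 2) (Metric.ball (0:ℂ) 1) :=
      cont_int (((cfd hu 1).pow 2).add ((cfd hu _).pow 2))
    have i2 : IntegrableOn (fun z => (fderiv ℝ (harm q N) z 1) ^ 2 + (fderiv ℝ (harm q N) z Complex.I) ^ 2)
        (Metric.ball (0:ℂ) 1) := cont_int (((cfd hh 1).pow 2).add ((cfd hh _).pow 2))
    have i3 : IntegrableOn (fun z => fderiv ℝ u z 1 * fderiv ℝ (harm q N) z 1 +
        fderiv ℝ u z Complex.I * fderiv ℝ (harm q N) z Complex.I) (Metric.ball (0:ℂ) 1) :=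
      cont_int (((cfd hu 1).mul (cfd hh 1)).add ((cfd hu _).mul (cfd hh _)))
    have i4 : IntegrableOn (fun z => 2 * (fderiv ℝ u z 1 * fderiv ℝ (harm q N) z 1 +
        fderiv ℝ u z Complex.I * fderiv ℝ (harm q N) z Complex.I)) (Metric.ball (0:ℂ) 1) := i3.const_mul 2
    have i5 : IntegrableOn (fun z => ((fderiv ℝ u z 1) ^ 2 + (fderiv ℝ u z Complex.I) ^ 2) -
        2 * (fderiv ℝ u z 1 * fderiv ℝ (harm q N) z 1 +
        fderiv ℝ u z Complex.I * fderiv ℝ (harm q N) z Complex.I)) (Metric.ball (0:ℂ) 1) := i1.sub i4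
    unfold Dir B
    rw [← integral_const_mul, ← integral_sub i1 i4, ← integral_add i5 i2]
    refine integral_congr_ae (Filter.Eventually.of_forall fun z => ?_)
    simp only
    ring
  rw [h1, hB, hD] at h0
  linarith

end Pool.Agent.R223.Stk
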