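import Mathlib
import Pool.Agent.R223.Stk.Harm

set_option autoImplicit false
open MeasureTheory Set Real
open scoped ComplexConjugate

namespace Pool.Agent.R223.Stk
open Pool.Agent.R223.StkDefs

/-- from `ℤ` to `ℕ` for symmetric families -/
theorem sym_sum {g : ℤ → ℝ} {S : ℝ} (h : HasSum g S) (hs : ∀ n, g (-n) = g n) (h0 : g 0 = 0) :
    HasSum (fun n : ℕ => 2 * g n) S := by
  have h1 := h.nat_add_neg
  rw [h0, add_zero] at h1
  refine h1.congr_fun ?_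
  intro n
  rw [hs]; ring

/-- the Dirichlet sum -/
theorem dir_sum (u : ℂ → ℝ) (hu : ContDiff ℝ (⊤ : ℕ∞) u) :
    ∃ S : ℝ, HasSum (fun n : ℕ => 2 * ((n:ℝ) * ‖cf (bd u) n‖ ^ 2)) S ∧ 2 * π * S ≤ Dir u := by
  have hnn : ∀ n : ℕ, 0 ≤ 2 * ((n:ℝ) * ‖cf (bd u) n‖ ^ 2) := fun n => by positivity
  have hb : ∀ N : ℕ, ∑ n ∈ Finset.range N, 2 * ((n:ℝ) * ‖cf (bd u) n‖ ^ 2) ≤ Dir u / (2 * π) := by
    intro N
    have h1 := dir_lower u hu N
    have h2 : ∑ n ∈ Finset.range N, 2 * ((n:ℝ) * ‖cf (bd u) n‖ ^ 2) ≤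
        ∑ n ∈ Finset.range (N + 1), 2 * ((n:ℝ) * ‖cf (bd u) n‖ ^ 2) :=
      Finset.sum_le_sum_of_subset_of_nonneg (Finset.range_mono (Nat.le_succ N)) fun n _ _ => hnn n
    refine h2.trans ?_
    rw [Finset.sum_range_succ']
    simp only [Nat.cast_zero, zero_mul, mul_zero, add_zero]
    rw [le_div_iff₀ (by positivity), ← Finset.mul_sum]
    refine le_trans (le_of_eq ?_) h1
    rw [mul_assoc, mul_comm _ (2 * π), ← mul_assoc]
    congr 1
    · ring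
    · refine Finset.sum_congr rfl fun m _ => ?_
      push_cast; rfl
  have hsum : Summable (fun n : ℕ => 2 * ((n:ℝ) * ‖cf (bd u) n‖ ^ 2)) :=
    summable_of_sum_range_le hnn hb
  refine ⟨_, hsum.hasSum, ?_⟩
  have := hsum.tsum_le_of_sum_range_le hb
  rw [le_div_iff₀ (by positivity)] at this
  linarith

/-- completing the square -/
theorem square_bound (F H : ℂ) (d Λ : ℝ) (hd : 0 < d) :
    -(Λ ^ 2 * ‖H‖ ^ 2 / d) ≤ d * ‖F‖ ^ 2 + 2 * Λ * (F * conj H).re := by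
  have h1 : 0 ≤ ‖(d : ℂ) * F + (Λ : ℂ) * H‖ ^ 2 := sq_nonneg _
  have h2 : ‖(d : ℂ) * F + (Λ : ℂ) * H‖ ^ 2 = d ^ 2 * ‖F‖ ^ 2 + 2 * d * Λ * (F * conj H).re + Λ ^ 2 * ‖H‖ ^ 2 := by
    rw [← Complex.normSq_eq_norm_sq, ← Complex.normSq_eq_norm_sq, ← Complex.normSq_eq_norm_sq]
    simp only [Complex.normSq_apply, Complex.add_re, Complex.add_im, Complex.mul_re, Complex.mul_im,
      Complex.ofReal_re, Complex.ofReal_im, Complex.conj_re, Complex.conj_im]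
    ring
  rw [h2] at h1
  have h3 : 0 ≤ (d ^ 2 * ‖F‖ ^ 2 + 2 * d * Λ * (F * conj H).re + Λ ^ 2 * ‖H‖ ^ 2) / d := div_nonneg h1 hd.le
  have h4 : (d ^ 2 * ‖F‖ ^ 2 + 2 * d * Λ * (F * conj H).re + Λ ^ 2 * ‖H‖ ^ 2) / d =
      d * ‖F‖ ^ 2 + 2 * Λ * (F * conj H).re + Λ ^ 2 * ‖H‖ ^ 2 / d := by
    field_simp
  linarith

/-- the weights -/
noncomputable def kap (Λ : ℝ) (n : ℕ) : ℝ := if 2 ≤ n ∧ ¬ 3 ∣ n then 1 / ((n:ℝ) - Λ) else 0

theorem kap_nonneg (Λ : ℝ) (hΛ : Λ ≤ 3 / 2) (n : ℕ) : 0 ≤ kap Λ n := by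
  unfold kap
  split_ifs with h
  · have : (2:ℝ) ≤ n := by exact_mod_cast h.1
    have : 0 < (n:ℝ) - Λ := by linarith
    positivity
  · exact le_refl _

theorem kap_sum (Λ : ℝ) (hΛ : Λ ≤ 3 / 2) (J : ℕ) :
    ∑ n ∈ Finset.range (3 * (J + 1) + 2), kap Λ n ≤ 5 / 2 + (2 / 3) * ∑ i ∈ Finset.range J, 1 / ((i:ℝ) + 1) := by
  induction J with
  | zero =>
    simp only [Finset.sum_range_succ, Finset.sum_range_zero, kap]
    norm_num
    have h1 : (2 - Λ)⁻¹ ≤ 2 := by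
      rw [inv_le_comm₀ (by linarith) (by norm_num)]; linarith
    have h2 : (4 - Λ)⁻¹ ≤ 1 / 2 := by
      rw [inv_le_comm₀ (by linarith) (by norm_num)]; linarith
    linarith
  | succ J ih =>
    have e : 3 * (J + 1 + 1) + 2 = (3 * (J + 1) + 2) + 1 + 1 + 1 := by ring
    rw [e, Finset.sum_range_succ, Finset.sum_range_succ, Finset.sum_range_succ, Finset.sum_range_succ _ J, mul_add (2 / 3 : ℝ)]
    have hJ : (0:ℝ) ≤ J := Nat.cast_nonneg J
    have k1 : kap Λ (3 * (J + 1) + 2) ≤ 1 / (3 * ((J:ℝ) + 1)) := by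
      unfold kap
      rw [if_pos ⟨by omega, by omega⟩]
      push_cast
      exact one_div_le_one_div_of_le (by linarith) (by linarith)
    have k2 : kap Λ (3 * (J + 1) + 2 + 1) = 0 := by
      unfold kap
      rw [if_neg]
      rintro ⟨_, h⟩
      exact h (by omega)
    have k3 : kap Λ (3 * (J + 1) + 2 + 1 + 1) ≤ 1 / (3 * ((J:ℝ) + 1)) := by
      unfold kap
      rw [if_pos ⟨by omega, by omega⟩]
      push_cast
      exact one_div_le_one_div_of_le (by linarith) (by linarith)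
    have e2 : (2 / 3 : ℝ) * (1 / ((J:ℝ) + 1)) = 1 / (3 * ((J:ℝ) + 1)) + 1 / (3 * ((J:ℝ) + 1)) := by
      field_simp; ring
    rw [e2]
    linarith

end Pool.Agent.R223.Stk
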