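import Mathlib
import Pool.Agent.R223.Stk.Low

set_option autoImplicit false
open MeasureTheory Set Real
open scoped ComplexConjugate

namespace Pool.Agent.R223.Stk
open Pool.Agent.R223.StkDefs

/-- the first harmonic with complex amplitude `a` -/
noncomputable def pp (a : ℂ) (θ : ℝ) : ℝ := 2 * (a * ex 1 θ).re

theorem pp_BM (a : ℂ) : BM (pp a) := by
  refine ⟨?_, 2 * ‖a‖, fun θ => ?_⟩
  · exact (continuous_const.mul (Complex.continuous_re.comp (continuous_const.mul (ex_cont 1)))).measurable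
  · unfold pp
    rw [abs_mul, abs_two]
    have := Complex.abs_re_le_norm (a * ex 1 θ)
    rw [norm_mul, ex_norm, mul_one] at this
    linarith

theorem pp_eq (a : ℂ) (θ : ℝ) : (pp a θ : ℂ) = a * ex 1 θ + conj a * ex (-1) θ := by
  unfold pp
  rw [Complex.ofReal_mul, Complex.re_eq_add_conj, map_mul, ex_conj]
  push_cast; ring

theorem cf_mul_pp (s : ℝ → ℝ) (hs : BM s) (a : ℂ) (n : ℤ) :
    cf (fun θ => s θ * pp a θ) n = a * cf s (n - 1) + conj a * cf s (n + 1) := by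
  unfold cf
  have h1 : ∀ θ : ℝ, ((s θ * pp a θ : ℝ) : ℂ) * ex (-n) θ =
      a * ((s θ : ℂ) * ex (-(n - 1)) θ) + conj a * ((s θ : ℂ) * ex (-(n + 1)) θ) := by
    intro θ
    rw [Complex.ofReal_mul, pp_eq]
    have a1 : ex (-(n - 1)) θ = ex 1 θ * ex (-n) θ := by rw [← ex_add]; congr 1; ring
    have a2 : ex (-(n + 1)) θ = ex (-1) θ * ex (-n) θ := by rw [← ex_add]; congr 1; ring
    rw [a1, a2]; ring
  simp only [h1]
  rw [intervalIntegral.integral_add ((hs.cint _ _ _).const_mul _) ((hs.cint _ _ _).const_mul _),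
    intervalIntegral.integral_const_mul, intervalIntegral.integral_const_mul]
  ring

theorem int_mul_pp (h : ℝ → ℝ) (hh : BM h) (a : ℂ) :
    (2 * π)⁻¹ * ∫ θ in (-π)..π, h θ * pp a θ = 2 * (a * conj (cf h 1)).re := by
  rw [← cf_neg]
  unfold cf
  have h1 : ∀ θ : ℝ, h θ * pp a θ = 2 * (a * ((h θ : ℂ) * ex (- -1) θ)).re := by
    intro θ
    unfold pp
    rw [neg_neg]
    have : a * ((h θ : ℂ) * ex 1 θ) = ((h θ : ℝ) : ℂ) * (a * ex 1 θ) := by ring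
    rw [this, Complex.re_ofReal_mul]; ring
  simp only [h1]
  rw [intervalIntegral.integral_const_mul]
  have h2 : ∫ θ in (-π)..π, (a * ((h θ : ℂ) * ex (- -1) θ)).re =
      (∫ θ in (-π)..π, a * ((h θ : ℂ) * ex (- -1) θ)).re :=
    (Complex.reCLM).intervalIntegral_comp_comm (a := -π) (b := π) (μ := volume)
      ((hh.cint (- -1) (-π) π).const_mul a)
  rw [h2, intervalIntegral.integral_const_mul]
  have h3 : ∀ X : ℂ, a * (((1 / (2 * π) : ℝ) : ℂ) * X) = ((1 / (2 * π) : ℝ) : ℂ) * (a * X) := fun X => by ring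
  rw [h3, Complex.re_ofReal_mul]
  ring

theorem lower_main (s : ℝ → ℝ) (hsm : Measurable s) (h01 : ∀ θ, s θ = 0 ∨ s θ = 1) (ε Λ : ℝ) (hε : 0 ≤ ε)
    (hΛ1 : 1 ≤ Λ) (hΛ2 : Λ ≤ 3 / 2) (hc0 : cf s 0 = (ε : ℂ)) (hc3 : ∀ k : ℤ, ¬ (3:ℤ) ∣ k → cf s k = 0)
    (hcb : ∀ k, ‖cf s k‖ ≤ ε) (J : ℕ)
    (hfin : Λ ^ 2 * ε ^ 2 * (5 / 2 + (2 / 3) * ∑ i ∈ Finset.range J, 1 / ((i:ℝ) + 1)) +
      Λ ^ 2 / (3 * J + 4 - Λ) * ε ≤ 1 - Λ + Λ * ε)
    (u : ℂ → ℝ) (hu : ContDiff ℝ (⊤ : ℕ∞) u) (hm : cf (bd u) 0 = 0) :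
    Λ * ∫ θ in (-π)..π, (1 - s θ) * (bd u θ) ^ 2 ≤ Dir u := by
  have hsB : BM s := ⟨hsm, 1, fun θ => by rcases h01 θ with h | h <;> rw [h] <;> norm_num⟩
  set f := bd u with hf
  have hfB : BM f := bd_BM hu.continuous
  set a := cf f 1 with ha
  set h : ℝ → ℝ := fun θ => s θ * pp a θ with hh
  have hhB : BM h := hsB.mul (pp_BM a)
  have hH := cf_mul_pp s hsB a
  have H0 : cf h 0 = 0 := by
    rw [hh, hH, hc3 _ (by decide), hc3 _ (by decide)]; simp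
  have H1 : cf h 1 = (ε : ℂ) * a := by
    rw [hh, hH, hc3 (1 + 1) (by decide), sub_self, hc0]; ring
  have H3 : ∀ n : ℕ, 2 ≤ n → 3 ∣ n → cf h n = 0 := by
    intro n _ hn
    rw [hh, hH, hc3 _ (by omega), hc3 _ (by omega)]; simp
  have Hb : ∀ n : ℕ, 2 ≤ n → ¬ 3 ∣ n → ‖cf h n‖ ≤ ε * ‖a‖ := by
    intro n _ hn
    rw [hh, hH]
    by_cases h1 : (3:ℤ) ∣ (n:ℤ) + 1
    · rw [hc3 ((n:ℤ) - 1) (by omega), mul_zero, zero_add, norm_mul, RCLike.norm_conj, mul_comm]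
      exact mul_le_mul_of_nonneg_right (hcb _) (norm_nonneg _)
    · rw [hc3 ((n:ℤ) + 1) h1, mul_zero, add_zero, norm_mul, mul_comm]
      exact mul_le_mul_of_nonneg_right (hcb _) (norm_nonneg _)
  -- sums
  obtain ⟨S, hS, hSD⟩ := dir_sum u hu
  have P1 := sym_sum (parseval hfB) (fun n => by rw [cf_neg, RCLike.norm_conj]) (by rw [hm]; simp)
  have P2 := sym_sum (parseval hhB) (fun n => by rw [cf_neg, RCLike.norm_conj]) (by rw [H0]; simp)
  have P3 := sym_sum (parseval2 hfB hhB) (fun n => by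
    rw [cf_neg, cf_neg, ← map_mul, Complex.conj_re]) (by rw [hm]; simp)
  have hMh : (2 * π)⁻¹ * ∫ θ in (-π)..π, h θ ^ 2 = 2 * ε * ‖a‖ ^ 2 := by
    have e1 : ∀ θ, h θ ^ 2 = h θ * pp a θ := by
      intro θ
      simp only [hh]
      rcases h01 θ with h1 | h1 <;> rw [h1] <;> ring
    simp only [e1]
    rw [int_mul_pp h hhB, H1, map_mul, Complex.conj_ofReal]
    have : a * ((ε : ℂ) * conj a) = ((ε * ‖a‖ ^ 2 : ℝ) : ℂ) := by
      have h2 : a * ((ε : ℂ) * conj a) = (ε : ℂ) * (a * conj a) := by ring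
      rw [h2, Complex.mul_conj, Complex.normSq_eq_norm_sq]; push_cast; ring
    rw [this, Complex.ofReal_re]; ring
  rw [hMh] at P2
  set X : ℝ := (2 * π)⁻¹ * ∫ θ in (-π)..π, f θ * h θ with hX
  set Mf : ℝ := (2 * π)⁻¹ * ∫ θ in (-π)..π, f θ ^ 2 with hMf
  set c : ℝ := Λ ^ 2 / (3 * J + 4 - Λ) with hc
  have hJ0 : (0:ℝ) ≤ J := Nat.cast_nonneg J
  have hden : 0 < 3 * (J:ℝ) + 4 - Λ := by linarith
  have hc0' : 0 ≤ c := by positivity
  have hT := ((hS.sub (P1.mul_left Λ)).add (P3.mul_left (2 * Λ))).add (P2.mul_left c)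
  set term : ℕ → ℝ := fun n => 2 * ((n:ℝ) * ‖cf f n‖ ^ 2) - Λ * (2 * ‖cf f n‖ ^ 2) +
    2 * Λ * (2 * (cf f n * conj (cf h n)).re) + c * (2 * ‖cf h n‖ ^ 2) with hterm
  have hT' : HasSum term (S - Λ * Mf + 2 * Λ * X + c * (2 * ε * ‖a‖ ^ 2)) := hT
  have hge2 : ∀ n : ℕ, 2 ≤ n → 2 * (c * ‖cf h n‖ ^ 2 - Λ ^ 2 * ‖cf h n‖ ^ 2 / ((n:ℝ) - Λ)) ≤ term n := by
    intro n hn
    have hn' : (2:ℝ) ≤ n := by exact_mod_cast hn
    have := square_bound (cf f n) (cf h n) ((n:ℝ) - Λ) Λ (by linarith)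
    simp only [hterm]
    linarith
  have hout : ∀ n : ℕ, n ∉ Finset.range (3 * (J + 1) + 2) → 0 ≤ term n := by
    intro n hn
    rw [Finset.mem_range, not_lt] at hn
    refine le_trans ?_ (hge2 n (by omega))
    have hn' : 3 * (J:ℝ) + 5 ≤ n := by
      have : ((3 * (J + 1) + 2 : ℕ) : ℝ) ≤ n := by exact_mod_cast hn
      push_cast at this; linarith
    have h1 : Λ ^ 2 * ‖cf h n‖ ^ 2 / ((n:ℝ) - Λ) ≤ c * ‖cf h n‖ ^ 2 := by
      rw [hc, div_mul_eq_mul_div]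
      exact div_le_div_of_nonneg_left (by positivity) hden (by linarith)
    linarith
  have hin : ∀ n ∈ Finset.range (3 * (J + 1) + 2),
      (if n = 1 then 2 * (1 - Λ + 2 * Λ * ε) * ‖a‖ ^ 2 else 0) - 2 * Λ ^ 2 * ε ^ 2 * ‖a‖ ^ 2 * kap Λ n ≤ term n := by
    intro n _
    rcases Nat.lt_or_ge n 2 with h2 | h2
    · have hk : kap Λ n = 0 := by
        unfold kap; rw [if_neg]; rintro ⟨h3, _⟩; omega
      rw [hk, mul_zero, sub_zero]
      interval_cases n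
      · rw [if_neg (by norm_num)]
        have : term 0 = c * (2 * ‖cf h 0‖ ^ 2) := by
          simp only [hterm]
          rw [Nat.cast_zero, Nat.cast_zero, hm]; simp
        rw [this]; positivity
      · rw [if_pos rfl]
        have hr : (a * conj ((ε : ℂ) * a)).re = ε * ‖a‖ ^ 2 := by
          have : a * conj ((ε : ℂ) * a) = ((ε * ‖a‖ ^ 2 : ℝ) : ℂ) := by
            rw [map_mul, Complex.conj_ofReal]
            have h2 : a * ((ε : ℂ) * conj a) = (ε : ℂ) * (a * conj a) := by ring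
            rw [h2, Complex.mul_conj, Complex.normSq_eq_norm_sq]; push_cast; ring
          rw [this, Complex.ofReal_re]
        have : term 1 = 2 * (1 - Λ + 2 * Λ * ε) * ‖a‖ ^ 2 + c * (2 * ‖(ε : ℂ) * a‖ ^ 2) := by
          simp only [hterm]
          rw [Nat.cast_one, Nat.cast_one, H1, ← ha, hr]; ring
        rw [this]
        have : 0 ≤ c * (2 * ‖(ε : ℂ) * a‖ ^ 2) := by positivity
        linarith
    · rw [if_neg (by omega)]
      have hn' : (2:ℝ) ≤ n := by exact_mod_cast h2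
      have hd : 0 < (n:ℝ) - Λ := by linarith
      refine le_trans ?_ (hge2 n h2)
      by_cases h3 : 3 ∣ n
      · rw [H3 n h2 h3]
        have hk : kap Λ n = 0 := by unfold kap; rw [if_neg]; rintro ⟨_, h4⟩; exact h4 h3
        rw [hk]; simp
      · have hk : kap Λ n = 1 / ((n:ℝ) - Λ) := by unfold kap; rw [if_pos ⟨h2, h3⟩]
        rw [hk]
        have h4 : ‖cf h n‖ ^ 2 ≤ ε ^ 2 * ‖a‖ ^ 2 := by
          rw [← mul_pow]; exact pow_le_pow_left₀ (norm_nonneg _) (Hb n h2 h3) 2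
        have h5 : Λ ^ 2 * ‖cf h n‖ ^ 2 / ((n:ℝ) - Λ) ≤ Λ ^ 2 * (ε ^ 2 * ‖a‖ ^ 2) / ((n:ℝ) - Λ) :=
          div_le_div_of_nonneg_right (mul_le_mul_of_nonneg_left h4 (sq_nonneg _)) hd.le
        have h6 : 0 ≤ c * ‖cf h n‖ ^ 2 := by positivity
        have h7 : 2 * Λ ^ 2 * ε ^ 2 * ‖a‖ ^ 2 * (1 / ((n:ℝ) - Λ)) = 2 * (Λ ^ 2 * (ε ^ 2 * ‖a‖ ^ 2) / ((n:ℝ) - Λ)) := by
          ring
        rw [h7]
        linarith
  have hsumle := sum_le_hasSum (Finset.range (3 * (J + 1) + 2)) hout hT'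
  have hsum2 := (Finset.sum_le_sum hin).trans hsumle
  rw [Finset.sum_sub_distrib, ← Finset.mul_sum] at hsum2
  have hone : ∑ n ∈ Finset.range (3 * (J + 1) + 2), (if n = 1 then 2 * (1 - Λ + 2 * Λ * ε) * ‖a‖ ^ 2 else 0) =
      2 * (1 - Λ + 2 * Λ * ε) * ‖a‖ ^ 2 := by
    rw [Finset.sum_ite_eq', if_pos (Finset.mem_range.2 (by omega))]
  rw [hone] at hsum2
  have hk := kap_sum Λ hΛ2 J
  -- the weighted integral
  have hsf : 2 * X - 2 * ε * ‖a‖ ^ 2 ≤ (2 * π)⁻¹ * ∫ θ in (-π)..π, s θ * f θ ^ 2 := by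
    have e0 : (2 * π)⁻¹ * ∫ θ in (-π)..π, h θ * pp a θ = 2 * ε * ‖a‖ ^ 2 := by
      rw [← hMh]
      congr 1
      refine intervalIntegral.integral_congr fun θ _ => ?_
      simp only [hh]
      rcases h01 θ with h1 | h1 <;> rw [h1] <;> ring
    have e1 : ∫ θ in (-π)..π, (2 * (f θ * h θ) - h θ * pp a θ) ≤ ∫ θ in (-π)..π, s θ * f θ ^ 2 := by
      refine intervalIntegral.integral_mono_on negpi.le (((hfB.mul hhB).int _ _).const_mul 2 |>.sub ((hhB.mul (pp_BM a)).int _ _)) ?_ ?_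
      · have := (hsB.mul (hfB.mul hfB)).int (-π) π
        simpa only [sq] using this
      · intro θ _
        simp only [hh]
        have hs0 : 0 ≤ s θ := by rcases h01 θ with h1 | h1 <;> rw [h1]; norm_num
        nlinarith [mul_nonneg hs0 (sq_nonneg (f θ - pp a θ))]
    rw [intervalIntegral.integral_sub (((hfB.mul hhB).int _ _).const_mul 2) ((hhB.mul (pp_BM a)).int _ _),
      intervalIntegral.integral_const_mul] at e1
    have e2 := mul_le_mul_of_nonneg_left e1 (by positivity : 0 ≤ (2 * π)⁻¹)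
    rw [mul_sub, e0] at e2
    rw [hX]
    linarith
  have hsplit : ∫ θ in (-π)..π, (1 - s θ) * f θ ^ 2 = (∫ θ in (-π)..π, f θ ^ 2) - ∫ θ in (-π)..π, s θ * f θ ^ 2 := by
    have i1 : IntervalIntegrable (fun θ => f θ ^ 2) volume (-π) π := by
      have := (hfB.mul hfB).int (-π) π
      simpa only [sq] using this
    have i2 : IntervalIntegrable (fun θ => s θ * f θ ^ 2) volume (-π) π := by
      have := (hsB.mul (hfB.mul hfB)).int (-π) π
      simpa only [sq] using this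
    rw [← intervalIntegral.integral_sub i1 i2]
    refine intervalIntegral.integral_congr fun θ _ => ?_
    ring
  rw [hsplit]
  have hpi : 0 < 2 * π := by positivity
  set If := ∫ θ in (-π)..π, f θ ^ 2 with hIf
  set Is := ∫ θ in (-π)..π, s θ * f θ ^ 2 with hIs
  have eMf : 2 * π * Mf = If := by rw [hMf]; field_simp
  have eIs : 2 * π * (2 * X - 2 * ε * ‖a‖ ^ 2) ≤ Is := by
    have := mul_le_mul_of_nonneg_left hsf hpi.le
    refine this.trans (le_of_eq ?_)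
    field_simp
  have hA : 0 ≤ ‖a‖ ^ 2 := sq_nonneg _
  have hfin2 : Λ ^ 2 * ε ^ 2 * (∑ n ∈ Finset.range (3 * (J + 1) + 2), kap Λ n) + c * ε ≤ 1 - Λ + Λ * ε := by
    refine le_trans ?_ hfin
    have := mul_le_mul_of_nonneg_left hk (by positivity : 0 ≤ Λ ^ 2 * ε ^ 2)
    linarith
  have hfin3 := mul_le_mul_of_nonneg_right hfin2 hA
  have hkey : 0 ≤ S - Λ * Mf + 2 * Λ * X - 2 * Λ * ε * ‖a‖ ^ 2 := by
    set K := ∑ n ∈ Finset.range (3 * (J + 1) + 2), kap Λ n with hK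
    nlinarith
  have hkey2 := mul_le_mul_of_nonneg_left hkey hpi.le
  have hΛ0 : 0 ≤ Λ := by linarith
  have e5 := mul_le_mul_of_nonneg_left eIs hΛ0
  have e6 : 2 * π * (S - Λ * Mf + 2 * Λ * X - 2 * Λ * ε * ‖a‖ ^ 2) =
      2 * π * S - Λ * (2 * π * Mf) + Λ * (2 * π * (2 * X - 2 * ε * ‖a‖ ^ 2)) := by ring
  rw [e6, eMf, mul_zero] at hkey2
  linarith

end Pool.Agent.R223.Stk
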