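import Mathlib
import Pool.Agent.R223.Stk.Low2

set_option autoImplicit false
open MeasureTheory Set Real
open scoped ComplexConjugate

namespace Pool.Agent.R223.Stk
open Pool.Agent.R223.StkDefs

theorem arcSet_meas (n : ℕ) (α : ℝ) : MeasurableSet (arcSet n α) := by
  have : arcSet n α = ⋃ ℓ : ℤ, {θ : ℝ | |θ - 2 * π * ℓ / n| ≤ π * α / n} := by
    ext θ; simp [arcSet]
  rw [this]
  exact MeasurableSet.iUnion fun ℓ => (isClosed_le (by fun_prop) continuous_const).measurableSet

theorem arcs_meas (n : ℕ) (α : ℝ) : Measurable (arcs n α) := measurable_const.indicator (arcSet_meas n α)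

theorem arcs_01 (n : ℕ) (α θ : ℝ) : arcs n α θ = 0 ∨ arcs n α θ = 1 := by
  unfold arcs
  by_cases h : θ ∈ arcSet n α
  · right; rw [indicator_of_mem h]
  · left; rw [indicator_of_notMem h]

theorem arcs_per (α : ℝ) : Function.Periodic (arcs 3 α) (2 * π / 3) := by
  intro θ
  have h : θ + 2 * π / 3 ∈ arcSet 3 α ↔ θ ∈ arcSet 3 α := by
    constructor
    · rintro ⟨ℓ, hℓ⟩
      refine ⟨ℓ - 1, ?_⟩
      have : θ - 2 * π * ((ℓ - 1 : ℤ) : ℝ) / (3 : ℕ) = θ + 2 * π / 3 - 2 * π * ℓ / (3 : ℕ) := by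
        push_cast; ring
      rwa [this]
    · rintro ⟨ℓ, hℓ⟩
      refine ⟨ℓ + 1, ?_⟩
      have : θ + 2 * π / 3 - 2 * π * ((ℓ + 1 : ℤ) : ℝ) / (3 : ℕ) = θ - 2 * π * ℓ / (3 : ℕ) := by
        push_cast; ring
      rwa [this]
  unfold arcs
  by_cases h1 : θ ∈ arcSet 3 α
  · rw [indicator_of_mem h1, indicator_of_mem (h.2 h1)]
  · rw [indicator_of_notMem h1, indicator_of_notMem (fun h2 => h1 (h.1 h2))]

theorem arcs_BM (n : ℕ) (α : ℝ) : BM (arcs n α) :=
  ⟨arcs_meas n α, 1, fun θ => by rcases arcs_01 n α θ with h | h <;> rw [h] <;> norm_num⟩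

theorem arcs_int (α : ℝ) (h0 : 0 < α) (h1 : α < 1) : ∫ θ in (-π)..π, arcs 3 α θ = α * (2 * π) := by
  have hπ := pi_pos
  have e1 : ∫ θ in (-π)..π, arcs 3 α θ = 3 * ∫ θ in (-(π / 3))..(π / 3), arcs 3 α θ := by
    have h := (arcs_per α).intervalIntegral_add_zsmul_eq 3 (-π) (fun a b => (arcs_BM 3 α).int a b)
    have h2 := (arcs_per α).intervalIntegral_add_eq (-π) (-(π / 3))
    have a1 : -π + (3:ℤ) • (2 * π / 3) = π := by
      rw [zsmul_eq_mul]; push_cast; ring
    have a2 : -(π / 3) + 2 * π / 3 = π / 3 := by ring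
    rw [a1, h2, a2] at h
    rw [h, zsmul_eq_mul]; push_cast; rfl
  have e2 : ∫ θ in (-(π / 3))..(π / 3), arcs 3 α θ = 2 * (π * α / 3) := by
    rw [intervalIntegral.integral_of_le (by linarith), integral_Ioc_eq_integral_Ioo]
    have e3 : ∫ θ in Ioo (-(π / 3)) (π / 3), arcs 3 α θ =
        ∫ θ in Ioo (-(π / 3)) (π / 3), (Icc (-(π * α / 3)) (π * α / 3)).indicator (fun _ => (1:ℝ)) θ := by
      refine setIntegral_congr_fun measurableSet_Ioo fun θ hθ => ?_
      have hiff : θ ∈ arcSet 3 α ↔ θ ∈ Icc (-(π * α / 3)) (π * α / 3) := by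
        constructor
        · rintro ⟨ℓ, hℓ⟩
          have hw : π * α / 3 < π / 3 := by
            have : π * α < π * 1 := mul_lt_mul_of_pos_left h1 hπ
            linarith
          have hℓ0 : ℓ = 0 := by
            rcases lt_trichotomy ℓ 0 with h | h | h
            · exfalso
              have h2 : (ℓ : ℝ) ≤ -1 := by exact_mod_cast Int.le_sub_one_of_lt h
              have h3 := (abs_le.1 hℓ).2
              push_cast at h3
              have h4 : 2 * π * ℓ / 3 ≤ -(2 * π / 3) := by nlinarith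
              linarith [hθ.1]
            · exact h
            · exfalso
              have h2 : (1 : ℝ) ≤ ℓ := by exact_mod_cast h
              have h3 := (abs_le.1 hℓ).1
              push_cast at h3
              have h4 : 2 * π / 3 ≤ 2 * π * ℓ / 3 := by nlinarith
              linarith [hθ.2]
          rw [hℓ0] at hℓ
          have := abs_le.1 hℓ
          push_cast at this
          rw [mul_zero, zero_div, sub_zero] at this
          exact this
        · intro h
          refine ⟨0, ?_⟩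
          rw [Int.cast_zero, mul_zero, zero_div, sub_zero, abs_le]
          push_cast
          exact h
      unfold arcs
      by_cases h2 : θ ∈ arcSet 3 α
      · rw [indicator_of_mem h2, indicator_of_mem (hiff.1 h2)]
      · rw [indicator_of_notMem h2, indicator_of_notMem (fun h3 => h2 (hiff.2 h3))]
    rw [e3, setIntegral_indicator measurableSet_Icc]
    have e4 : Ioo (-(π / 3)) (π / 3) ∩ Icc (-(π * α / 3)) (π * α / 3) = Icc (-(π * α / 3)) (π * α / 3) := by
      refine inter_eq_self_of_subset_right fun θ hθ => ?_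
      have hw : π * α / 3 < π / 3 := by
        have : π * α < π * 1 := mul_lt_mul_of_pos_left h1 hπ
        linarith
      exact ⟨by linarith [hθ.1], by linarith [hθ.2]⟩
    rw [e4, setIntegral_const, smul_eq_mul, mul_one, Measure.real, Real.volume_Icc, ENNReal.toReal_ofReal (by
      have : 0 < π * α / 3 := by positivity
      linarith)]
    ring
  rw [e1, e2]; ring

theorem arcs_adm (α : ℝ) (h0 : 0 < α) (h1 : α < 1) : Adm α (arcs 3 α) :=
  ⟨arcs_meas 3 α, Filter.Eventually.of_forall fun θ => by rcases arcs_01 3 α θ with h | h <;> rw [h] <;> norm_num,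
    arcs_int α h0 h1⟩

theorem cf_one (k : ℤ) : cf (fun _ => (1:ℝ)) k = if k = 0 then 1 else 0 := by
  unfold cf
  simp only [Complex.ofReal_one, one_mul]
  rw [ex_int]
  have hpi : (π : ℂ) ≠ 0 := by exact_mod_cast pi_ne_zero
  by_cases h : k = 0
  · rw [if_pos (by omega), if_pos h]; push_cast; field_simp
  · rw [if_neg (by omega), if_neg h, mul_zero]

theorem norm_cf_le (f : ℝ → ℝ) (hf : BM f) (hf0 : ∀ θ, 0 ≤ f θ) (k : ℤ) :
    ‖cf f k‖ ≤ (2 * π)⁻¹ * ∫ θ in (-π)..π, f θ := by
  unfold cf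
  rw [norm_mul, Complex.norm_real, Real.norm_of_nonneg (by positivity), one_div]
  refine mul_le_mul_of_nonneg_left ?_ (by positivity)
  refine (intervalIntegral.norm_integral_le_integral_norm negpi.le).trans (le_of_eq ?_)
  refine intervalIntegral.integral_congr fun θ _ => ?_
  simp only [norm_mul, ex_norm, mul_one, Complex.norm_real, Real.norm_of_nonneg (hf0 θ)]

theorem cf_arcs (α : ℝ) (k : ℤ) (hk : ¬ (3:ℤ) ∣ k) : cf (arcs 3 α) k = 0 := by
  unfold cf
  set g : ℝ → ℂ := fun θ => (arcs 3 α θ : ℂ) * ex (-k) θ with hg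
  have hper : Function.Periodic g (2 * π) := by
    intro θ
    have h1 : arcs 3 α (θ + 2 * π) = arcs 3 α θ := by
      have := (arcs_per α).nsmul 3 θ
      have e : θ + 3 • (2 * π / 3) = θ + 2 * π := by
        rw [nsmul_eq_mul]; push_cast; ring
      rwa [e] at this
    have h2 : ex (-k) (θ + 2 * π) = ex (-k) θ := by
      unfold ex
      rw [Complex.exp_eq_exp_iff_exists_int]
      refine ⟨-k, ?_⟩
      push_cast; ring
    simp only [hg, h1, h2]
  have hshift : ∀ θ, g (θ + 2 * π / 3) = ex (-k) (2 * π / 3) * g θ := by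
    intro θ
    have h2 : ex (-k) (θ + 2 * π / 3) = ex (-k) θ * ex (-k) (2 * π / 3) := by
      unfold ex
      rw [← Complex.exp_add]
      congr 1; push_cast; ring
    simp only [hg, arcs_per α θ, h2]
    ring
  have e1 : ∫ θ in (-π)..π, g (θ + 2 * π / 3) = ∫ θ in (-π)..π, g θ := by
    rw [intervalIntegral.integral_comp_add_right g (2 * π / 3)]
    have := hper.intervalIntegral_add_eq (-π + 2 * π / 3) (-π)
    have a1 : -π + 2 * π / 3 + 2 * π = π + 2 * π / 3 := by ring
    have a2 : -π + 2 * π = π := by ring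
    rw [a1, a2] at this
    exact this
  simp only [hshift] at e1
  rw [intervalIntegral.integral_const_mul] at e1
  have hne : ex (-k) (2 * π / 3) ≠ 1 := by
    unfold ex
    rw [Ne, Complex.exp_eq_one_iff]
    rintro ⟨n, hn⟩
    have hpi : (π : ℂ) ≠ 0 := by exact_mod_cast pi_ne_zero
    have h3 : ((-k : ℤ) : ℂ) = 3 * n := by
      have hI := Complex.I_ne_zero
      push_cast at hn ⊢
      field_simp at hn
      linear_combination hn
    have h4 : -k = 3 * n := by exact_mod_cast h3
    exact hk ⟨-n, by linarith⟩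
  have h5 : (ex (-k) (2 * π / 3) - 1) * ∫ θ in (-π)..π, g θ = 0 := by rw [sub_mul, e1]; ring
  rcases mul_eq_zero.1 h5 with h | h
  · exact absurd (sub_eq_zero.1 h) hne
  · have h6 : ∫ θ in (-π)..π, (arcs 3 α θ : ℂ) * ex (-k) θ = 0 := h
    rw [h6, mul_zero]

/-- the Fourier coefficients of the gaps -/
theorem gap_facts (ε : ℝ) (h0 : 0 < ε) (h1 : ε < 1) :
    cf (fun θ => 1 - arcs 3 (1 - ε) θ) 0 = (ε : ℂ) ∧
    (∀ k : ℤ, ¬ (3:ℤ) ∣ k → cf (fun θ => 1 - arcs 3 (1 - ε) θ) k = 0) ∧
    (∀ k, ‖cf (fun θ => 1 - arcs 3 (1 - ε) θ) k‖ ≤ ε) := by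
  have hB1 : BM (fun _ : ℝ => (1:ℝ)) := ⟨measurable_const, 1, fun _ => by norm_num⟩
  have hB2 := arcs_BM 3 (1 - ε)
  have hint := arcs_int (1 - ε) (by linarith) (by linarith)
  refine ⟨?_, ?_, ?_⟩
  · rw [cf_sub hB1 hB2, cf_one, if_pos rfl]
    unfold cf
    simp only [neg_zero, ex_zero, mul_one]
    have : ∫ θ in (-π)..π, ((arcs 3 (1 - ε) θ : ℝ) : ℂ) = (((1 - ε) * (2 * π) : ℝ) : ℂ) := by
      rw [← hint]
      exact intervalIntegral.integral_ofReal
    rw [this]
    have hpi : (π : ℂ) ≠ 0 := by exact_mod_cast pi_ne_zero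
    push_cast
    field_simp
    ring
  · intro k hk
    rw [cf_sub hB1 hB2, cf_one, if_neg (fun h => hk (by rw [h]; exact dvd_zero _)), cf_arcs _ k hk, sub_zero]
  · intro k
    refine (norm_cf_le _ (hB1.sub hB2) (fun θ => ?_) k).trans (le_of_eq ?_)
    · rcases arcs_01 3 (1 - ε) θ with h | h <;> rw [h] <;> norm_num
    · rw [intervalIntegral.integral_sub (hB1.int _ _) (hB2.int _ _), hint, intervalIntegral.integral_const]
      simp only [smul_eq_mul, mul_one]
      field_simp
      ring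

end Pool.Agent.R223.Stk
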