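import Mathlib
import Pool.Agent.R223.Stk.Arc

set_option autoImplicit false
open MeasureTheory Set Real
open scoped ComplexConjugate

namespace Pool.Agent.R223.Stk
open Pool.Agent.R223.StkDefs

/-- two gaps -/
def GG (h : ℝ) : Set ℝ := Icc (-h) h ∪ Icc (π / 2 - h) (π / 2 + h)

noncomputable def s2 (h : ℝ) : ℝ → ℝ := (GG h).indicator fun _ => 1

theorem GG_meas (h : ℝ) : MeasurableSet (GG h) := measurableSet_Icc.union measurableSet_Icc

theorem s2_01 (h θ : ℝ) : s2 h θ = 0 ∨ s2 h θ = 1 := by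
  unfold s2
  by_cases h1 : θ ∈ GG h
  · right; rw [indicator_of_mem h1]
  · left; rw [indicator_of_notMem h1]

theorem s2_nonneg (h θ : ℝ) : 0 ≤ s2 h θ := by rcases s2_01 h θ with h | h <;> rw [h]; norm_num

theorem s2_BM (h : ℝ) : BM (s2 h) :=
  ⟨measurable_const.indicator (GG_meas h), 1, fun θ => by rcases s2_01 h θ with h | h <;> rw [h] <;> norm_num⟩

theorem s2_int (h : ℝ) (h0 : 0 < h) (h1 : h < π / 4) (F : ℝ → ℂ) (hF : Continuous F) :
    ∫ θ in (-π)..π, (s2 h θ : ℂ) * F θ = (∫ t in (-h)..h, F t) + ∫ t in (-h)..h, F (t + π / 2) := by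
  have hπ := pi_pos
  have e1 : ∀ θ, (s2 h θ : ℂ) * F θ = (GG h).indicator F θ := by
    intro θ
    unfold s2
    by_cases h1 : θ ∈ GG h
    · rw [indicator_of_mem h1, indicator_of_mem h1]; simp
    · rw [indicator_of_notMem h1, indicator_of_notMem h1]; simp
  simp only [e1]
  rw [intervalIntegral.integral_of_le (by linarith), setIntegral_indicator (GG_meas h)]
  have e2 : Ioc (-π) π ∩ GG h = GG h := by
    refine inter_eq_self_of_subset_right ?_
    rintro θ (hθ | hθ)
    · exact ⟨by linarith [hθ.1], by linarith [hθ.2]⟩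
    · exact ⟨by linarith [hθ.1], by linarith [hθ.2]⟩
  rw [e2]
  unfold GG
  rw [setIntegral_union ?_ measurableSet_Icc (hF.continuousOn.integrableOn_compact isCompact_Icc)
    (hF.continuousOn.integrableOn_compact isCompact_Icc)]
  · rw [intervalIntegral.integral_comp_add_right F (π / 2), intervalIntegral.integral_of_le (by linarith),
      intervalIntegral.integral_of_le (by linarith), integral_Icc_eq_integral_Ioc, integral_Icc_eq_integral_Ioc]
    have a1 : -h + π / 2 = π / 2 - h := by ring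
    have a2 : h + π / 2 = π / 2 + h := by ring
    rw [a1, a2]
  · rw [Set.disjoint_left]
    intro θ hθ1 hθ2
    linarith [hθ1.2, hθ2.1]

theorem s2_total (h : ℝ) (h0 : 0 < h) (h1 : h < π / 4) : ∫ θ in (-π)..π, s2 h θ = 4 * h := by
  have e := s2_int h h0 h1 (fun _ => 1) continuous_const
  simp only [mul_one, intervalIntegral.integral_const] at e
  have e2 : ∫ θ in (-π)..π, ((s2 h θ : ℝ) : ℂ) = ((∫ θ in (-π)..π, s2 h θ : ℝ) : ℂ) := intervalIntegral.integral_ofReal
  rw [e2, Complex.real_smul] at e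
  have e3 : ((∫ θ in (-π)..π, s2 h θ : ℝ) : ℂ) = ((4 * h : ℝ) : ℂ) := by
    rw [e]; push_cast; ring
  exact_mod_cast e3

/-- sup bound for integrals over the gaps -/
theorem s2_bound (h : ℝ) (h0 : 0 < h) (h1 : h < π / 4) (f : ℝ → ℝ) (hf : BM f) (M : ℝ) (hM : ∀ θ, |f θ| ≤ M) :
    |∫ θ in (-π)..π, s2 h θ * f θ| ≤ 4 * h * M := by
  rw [← s2_total h h0 h1, ← intervalIntegral.integral_mul_const]
  have h2 := intervalIntegral.norm_integral_le_integral_norm (f := fun θ => s2 h θ * f θ) (μ := volume) negpi.le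
  rw [Real.norm_eq_abs] at h2
  refine h2.trans (intervalIntegral.integral_mono_on negpi.le (((s2_BM h).mul hf).int _ _).norm
    (((s2_BM h).int _ _).mul_const M) fun θ _ => ?_)
  rw [Real.norm_eq_abs, abs_mul, abs_of_nonneg (s2_nonneg h θ)]
  exact mul_le_mul_of_nonneg_left (hM θ) (s2_nonneg h θ)

/-- the elementary coefficient -/
noncomputable def sg (h : ℝ) (k : ℤ) : ℂ := (1 / (2 * π) : ℝ) * ∫ t in (-h)..h, ex (-k) t

theorem cf_s2 (h : ℝ) (h0 : 0 < h) (h1 : h < π / 4) (k : ℤ) :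
    cf (s2 h) k = (1 + ex (-k) (π / 2)) * sg h k := by
  unfold cf sg
  rw [s2_int h h0 h1 _ (ex_cont _)]
  have h2 : ∀ t : ℝ, ex (-k) (t + π / 2) = ex (-k) (π / 2) * ex (-k) t := by
    intro t
    unfold ex
    rw [← Complex.exp_add]
    congr 1; push_cast; ring
  simp only [h2]
  rw [intervalIntegral.integral_const_mul]
  ring

theorem sg_norm (h : ℝ) (h0 : 0 < h) (k : ℤ) : ‖sg h k‖ ≤ h / π := by
  unfold sg
  rw [norm_mul, Complex.norm_real, Real.norm_of_nonneg (by positivity)]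
  have h2 := intervalIntegral.norm_integral_le_of_norm_le_const (a := -h) (b := h) (f := ex (-k)) (C := 1)
    (fun t _ => (ex_norm _ _).le)
  rw [one_mul, abs_of_nonneg (by linarith)] at h2
  calc 1 / (2 * π) * ‖∫ t in (-h)..h, ex (-k) t‖ ≤ 1 / (2 * π) * (h - -h) :=
        mul_le_mul_of_nonneg_left h2 (by positivity)
    _ = h / π := by field_simp; ring

theorem ex_sub_one (k : ℤ) (t : ℝ) : ‖ex k t - 1‖ ≤ |(k:ℝ)| * |t| := by
  unfold ex
  have e : (k : ℂ) * t * Complex.I = Complex.I * ((k * t : ℝ) : ℂ) := by push_cast; ring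
  rw [e]
  have := Real.norm_exp_I_mul_ofReal_sub_one_le (x := (k:ℝ) * t)
  rwa [Real.norm_eq_abs, abs_mul] at this

theorem sg_close (h : ℝ) (h0 : 0 < h) (k : ℤ) : ‖sg h k - ((h / π : ℝ) : ℂ)‖ ≤ |(k:ℝ)| * h ^ 2 / π := by
  have e1 : ((h / π : ℝ) : ℂ) = (1 / (2 * π) : ℝ) * ∫ t in (-h)..h, (1:ℂ) := by
    have hpi : (π : ℂ) ≠ 0 := by exact_mod_cast pi_ne_zero
    rw [intervalIntegral.integral_const, Complex.real_smul]; push_cast
    field_simp; ring
  unfold sg
  rw [e1, ← mul_sub, ← intervalIntegral.integral_sub ((ex_cont _).intervalIntegrable _ _) intervalIntegrable_const,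
    norm_mul, Complex.norm_real, Real.norm_of_nonneg (by positivity)]
  have h2 := intervalIntegral.norm_integral_le_of_norm_le_const (a := -h) (b := h) (f := fun t => ex (-k) t - 1)
    (C := |(k:ℝ)| * h) (fun t ht => ?_)
  · rw [abs_of_nonneg (show (0:ℝ) ≤ h - -h by linarith)] at h2
    calc 1 / (2 * π) * ‖∫ t in (-h)..h, (ex (-k) t - 1)‖ ≤ 1 / (2 * π) * (|(k:ℝ)| * h * (h - -h)) :=
          mul_le_mul_of_nonneg_left h2 (by positivity)
      _ = |(k:ℝ)| * h ^ 2 / π := by field_simp; ring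
  · rw [uIoc_of_le (by linarith)] at ht
    refine (ex_sub_one _ _).trans ?_
    have h3 : |t| ≤ h := abs_le.2 ⟨ht.1.le, ht.2⟩
    rw [Int.cast_neg, abs_neg]
    exact mul_le_mul_of_nonneg_left h3 (abs_nonneg _)

end Pool.Agent.R223.Stk
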