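import Mathlib
import Pool.Agent.R223.Stk.Up1

set_option autoImplicit false
open MeasureTheory Set Real
open scoped ComplexConjugate

namespace Pool.Agent.R223.Stk
open Pool.Agent.R223.StkDefs

theorem int_mul_ex (h : ℝ → ℝ) (hh : BM h) (q : ℂ) (n : ℤ) :
    ∫ θ in (-π)..π, h θ * (q * ex n θ).re = 2 * π * (q * conj (cf h n)).re := by
  rw [← cf_neg]
  unfold cf
  have h1 : ∀ θ : ℝ, h θ * (q * ex n θ).re = (q * ((h θ : ℂ) * ex (- -n) θ)).re := by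
    intro θ
    rw [neg_neg]
    have : q * ((h θ : ℂ) * ex n θ) = ((h θ : ℝ) : ℂ) * (q * ex n θ) := by ring
    rw [this, Complex.re_ofReal_mul]
  simp only [h1]
  have h2 : ∫ θ in (-π)..π, (q * ((h θ : ℂ) * ex (- -n) θ)).re =
      (∫ θ in (-π)..π, q * ((h θ : ℂ) * ex (- -n) θ)).re :=
    (Complex.reCLM).intervalIntegral_comp_comm (a := -π) (b := π) (μ := volume)
      ((hh.cint (- -n) (-π) π).const_mul q)
  rw [h2, intervalIntegral.integral_const_mul]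
  have h3 : ∀ X : ℂ, q * (((1 / (2 * π) : ℝ) : ℂ) * X) = ((1 / (2 * π) : ℝ) : ℂ) * (q * X) := fun X => by ring
  rw [h3, Complex.re_ofReal_mul]
  field_simp

theorem harm_bdBM (q : ℕ → ℂ) (N : ℕ) : BM (bd (harm q N)) := bd_BM (harm_smooth q N).continuous

theorem harm_l2 (q : ℕ → ℂ) (N : ℕ) :
    ∫ θ in (-π)..π, bd (harm q N) θ ^ 2 = π * ∑ m ∈ Finset.range N, ‖q m‖ ^ 2 := by
  have P1 := sym_sum (parseval (harm_bdBM q N)) (fun n => by rw [cf_neg, RCLike.norm_conj])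
    (by rw [cf_harm_zero]; simp)
  have h2 : HasSum (fun n : ℕ => 2 * ‖cf (bd (harm q N)) n‖ ^ 2) (∑ n ∈ Finset.range (N + 1), 2 * ‖cf (bd (harm q N)) n‖ ^ 2) := by
    refine hasSum_sum_of_ne_finset_zero fun n hn => ?_
    rw [Finset.mem_range, not_lt] at hn
    obtain ⟨j, rfl⟩ : ∃ j, n = j + 1 := ⟨n - 1, by omega⟩
    have := cf_harm_pos q N j
    rw [if_neg (by omega)] at this
    push_cast
    rw [this]; simp
  have h3 := P1.unique h2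
  have h4 : ∑ n ∈ Finset.range (N + 1), 2 * ‖cf (bd (harm q N)) n‖ ^ 2 = (1 / 2) * ∑ m ∈ Finset.range N, ‖q m‖ ^ 2 := by
    rw [Finset.sum_range_succ', Finset.mul_sum]
    simp only [Nat.cast_zero]
    rw [cf_harm_zero]
    simp only [norm_zero]
    rw [zero_pow two_ne_zero, mul_zero, add_zero]
    refine Finset.sum_congr rfl fun m hm => ?_
    push_cast
    rw [cf_harm_pos, if_pos (Finset.mem_range.1 hm), norm_div, Complex.norm_ofNat]
    ring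
  rw [h4] at h3
  have h5 : ∫ θ in (-π)..π, bd (harm q N) θ ^ 2 = 2 * π * ((2 * π)⁻¹ * ∫ θ in (-π)..π, bd (harm q N) θ ^ 2) := by
    field_simp
  rw [h5, h3]; ring

theorem harm_mean (q : ℕ → ℂ) (N : ℕ) : ∫ θ in (-π)..π, bd (harm q N) θ = 0 := by
  have h := cf_harm_zero q N
  unfold cf at h
  simp only [neg_zero, ex_zero, mul_one] at h
  have e2 : ∫ θ in (-π)..π, ((bd (harm q N) θ : ℝ) : ℂ) = ((∫ θ in (-π)..π, bd (harm q N) θ : ℝ) : ℂ) :=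
    intervalIntegral.integral_ofReal
  rw [e2] at h
  have hpi : ((1 / (2 * π) : ℝ) : ℂ) ≠ 0 := by
    have : (1 / (2 * π) : ℝ) ≠ 0 := by positivity
    exact_mod_cast this
  have := (mul_eq_zero.1 h).resolve_left hpi
  exact_mod_cast this

theorem energy_id (s : ℝ → ℝ) (hs : BM s) (q : ℕ → ℂ) (N : ℕ) (c0 Λ : ℝ) :
    Dir (harm q N) - Λ * ∫ θ in (-π)..π, (1 - s θ) * (c0 + bd (harm q N) θ) ^ 2 =
      -(Λ * (2 * π - ∫ θ in (-π)..π, s θ) * c0 ^ 2) + 2 * Λ * c0 * (∫ θ in (-π)..π, s θ * bd (harm q N) θ) +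
      π * (∑ m ∈ Finset.range N, ((m:ℝ) + 1 - Λ) * ‖q m‖ ^ 2) +
      Λ * ∫ θ in (-π)..π, s θ * bd (harm q N) θ ^ 2 := by
  set g := bd (harm q N) with hg
  have hgB : BM g := harm_bdBM q N
  have hgg : BM (fun θ => g θ ^ 2) := by simpa only [sq] using hgB.mul hgB
  have h1 : ∫ θ in (-π)..π, (1 - s θ) * (c0 + g θ) ^ 2 =
      2 * π * c0 ^ 2 + 2 * c0 * (∫ θ in (-π)..π, g θ) + (∫ θ in (-π)..π, g θ ^ 2) -
      (c0 ^ 2 * (∫ θ in (-π)..π, s θ) + 2 * c0 * (∫ θ in (-π)..π, s θ * g θ) + ∫ θ in (-π)..π, s θ * g θ ^ 2) := by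
    have i1 := (hgB.int (-π) π).const_mul (2 * c0)
    have i2 := hgg.int (-π) π
    have i3 := (hs.int (-π) π).const_mul (c0 ^ 2)
    have i4 := ((hs.mul hgB).int (-π) π).const_mul (2 * c0)
    have i5 := (hs.mul hgg).int (-π) π
    have i0 : IntervalIntegrable (fun _ : ℝ => c0 ^ 2) volume (-π) π := intervalIntegrable_const
    have e : ∀ θ, (1 - s θ) * (c0 + g θ) ^ 2 = (c0 ^ 2 + 2 * c0 * g θ + g θ ^ 2) -
        (c0 ^ 2 * s θ + 2 * c0 * (s θ * g θ) + s θ * g θ ^ 2) := fun θ => by ring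
    simp only [e]
    rw [intervalIntegral.integral_sub ((i0.add i1).add i2) ((i3.add i4).add i5),
      intervalIntegral.integral_add (i0.add i1) i2, intervalIntegral.integral_add i0 i1,
      intervalIntegral.integral_add (i3.add i4) i5, intervalIntegral.integral_add i3 i4,
      intervalIntegral.integral_const_mul, intervalIntegral.integral_const_mul,
      intervalIntegral.integral_const_mul, intervalIntegral.integral_const]
    simp only [smul_eq_mul]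
    ring
  rw [h1, hg, harm_mean, harm_l2, dir_harm]
  have h2 : ∑ m ∈ Finset.range N, ((m:ℝ) + 1 - Λ) * ‖q m‖ ^ 2 =
      (∑ m ∈ Finset.range N, ((m:ℝ) + 1) * ‖q m‖ ^ 2) - Λ * ∑ m ∈ Finset.range N, ‖q m‖ ^ 2 := by
    rw [Finset.mul_sum, ← Finset.sum_sub_distrib]
    exact Finset.sum_congr rfl fun m _ => by ring
  rw [h2]
  ring

/-- the trial coefficients -/
noncomputable def qq (h Λ : ℝ) (p : ℂ) (m : ℕ) : ℂ :=
  if m = 0 then 2 * p else -(2 * (Λ : ℂ)) * cf (fun θ => s2 h θ * pp p θ) ((m : ℤ) + 1) / (((m:ℝ) + 1 - Λ : ℝ) : ℂ)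

/-- the gain -/
noncomputable def SS (h Λ : ℝ) (p : ℂ) (J : ℕ) : ℝ := ∑ i ∈ Finset.range (4 * J),
  ‖cf (fun θ => s2 h θ * pp p θ) ((i : ℤ) + 2)‖ ^ 2 / ((i:ℝ) + 2 - Λ)

/-- the corrector -/
noncomputable def ww (h Λ : ℝ) (p : ℂ) (J : ℕ) (θ : ℝ) : ℝ :=
  ∑ i ∈ Finset.range (4 * J), (qq h Λ p (i + 1) * ex ((i : ℤ) + 2) θ).re

theorem bd_split (h Λ : ℝ) (p : ℂ) (J : ℕ) (θ : ℝ) :
    bd (harm (qq h Λ p) (4 * J + 1)) θ = pp p θ + ww h Λ p J θ := by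
  rw [bd_harm, Finset.sum_range_succ', add_comm]
  congr 1
  · simp only [Nat.cast_zero, zero_add]
    unfold pp qq
    rw [if_pos rfl]
    have : (2:ℂ) * p * ex 1 θ = ((2:ℝ) : ℂ) * (p * ex 1 θ) := by push_cast; ring
    rw [this, Complex.re_ofReal_mul]

theorem ww_BM (h Λ : ℝ) (p : ℂ) (J : ℕ) : BM (ww h Λ p J) := by
  have : ww h Λ p J = fun θ => bd (harm (qq h Λ p) (4 * J + 1)) θ - pp p θ := by
    funext θ; rw [bd_split]; ring
  rw [this]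
  exact (harm_bdBM _ _).sub (pp_BM p)

theorem qq_succ (h Λ : ℝ) (p : ℂ) (i : ℕ) : qq h Λ p (i + 1) =
    -(2 * (Λ : ℂ)) * cf (fun θ => s2 h θ * pp p θ) ((i : ℤ) + 2) / (((i:ℝ) + 2 - Λ : ℝ) : ℂ) := by
  unfold qq
  rw [if_neg (Nat.succ_ne_zero i)]
  have h1 : ((i + 1 : ℕ) : ℤ) + 1 = (i : ℤ) + 2 := by push_cast; ring
  have h2 : (((i + 1 : ℕ) : ℝ) + 1 - Λ) = (i:ℝ) + 2 - Λ := by push_cast; ring
  rw [h1, h2]

theorem qq_norm (h Λ : ℝ) (hΛ1 : 1 ≤ Λ) (hΛ2 : Λ ≤ 3 / 2) (p : ℂ) (i : ℕ) : ‖qq h Λ p (i + 1)‖ =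
    2 * Λ * ‖cf (fun θ => s2 h θ * pp p θ) ((i : ℤ) + 2)‖ / ((i:ℝ) + 2 - Λ) := by
  rw [qq_succ, norm_div, norm_mul, norm_neg, norm_mul, Complex.norm_ofNat, Complex.norm_real, Complex.norm_real,
    Real.norm_of_nonneg (by linarith : 0 ≤ Λ), Real.norm_of_nonneg]
  have : (0:ℝ) ≤ i := Nat.cast_nonneg i
  linarith

theorem quad_sum (h Λ : ℝ) (hΛ1 : 1 ≤ Λ) (hΛ2 : Λ ≤ 3 / 2) (p : ℂ) (J : ℕ) :
    ∑ m ∈ Finset.range (4 * J + 1), ((m:ℝ) + 1 - Λ) * ‖qq h Λ p m‖ ^ 2 =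
      4 * (1 - Λ) * ‖p‖ ^ 2 + 4 * Λ ^ 2 * SS h Λ p J := by
  rw [Finset.sum_range_succ', add_comm]
  congr 1
  · unfold qq
    rw [if_pos rfl, norm_mul, Complex.norm_ofNat]
    push_cast; ring
  · unfold SS
    rw [Finset.mul_sum]
    refine Finset.sum_congr rfl fun i _ => ?_
    have hi : (0:ℝ) ≤ i := Nat.cast_nonneg i
    have hd : (i:ℝ) + 2 - Λ ≠ 0 := by
      have : 0 < (i:ℝ) + 2 - Λ := by linarith
      exact this.ne'
    rw [qq_norm h Λ hΛ1 hΛ2]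
    have : (((i + 1 : ℕ) : ℝ) + 1 - Λ) = (i:ℝ) + 2 - Λ := by push_cast; ring
    rw [this]
    field_simp
    ring

theorem cross_term (h Λ : ℝ) (hΛ2 : Λ ≤ 3 / 2) (p : ℂ) (J : ℕ) :
    ∫ θ in (-π)..π, s2 h θ * pp p θ * ww h Λ p J θ = -(4 * π * Λ * SS h Λ p J) := by
  have hB : BM (fun θ => s2 h θ * pp p θ) := (s2_BM h).mul (pp_BM p)
  unfold ww SS
  simp only [Finset.mul_sum]
  rw [intervalIntegral.integral_finsetSum]
  · rw [← Finset.sum_neg_distrib]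
    refine Finset.sum_congr rfl fun i _ => ?_
    have hi : (0:ℝ) ≤ i := Nat.cast_nonneg i
    have hd : (i:ℝ) + 2 - Λ ≠ 0 := by
      have : 0 < (i:ℝ) + 2 - Λ := by linarith
      exact this.ne'
    rw [int_mul_ex _ hB, qq_succ]
    set C := cf (fun θ => s2 h θ * pp p θ) ((i : ℤ) + 2) with hC
    have : -(2 * (Λ : ℂ)) * C / (((i:ℝ) + 2 - Λ : ℝ) : ℂ) * conj C =
        ((-(2 * Λ * ‖C‖ ^ 2 / ((i:ℝ) + 2 - Λ)) : ℝ) : ℂ) := by
      have h1 : -(2 * (Λ : ℂ)) * C / (((i:ℝ) + 2 - Λ : ℝ) : ℂ) * conj C =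
        -(2 * (Λ : ℂ)) * (C * conj C) / (((i:ℝ) + 2 - Λ : ℝ) : ℂ) := by ring
      rw [h1, Complex.mul_conj, Complex.normSq_eq_norm_sq]
      push_cast; ring
    rw [this, Complex.ofReal_re]
    ring
  · intro i _
    have : BM (fun θ => (qq h Λ p (i + 1) * ex ((i : ℤ) + 2) θ).re) := by
      refine ⟨(Complex.continuous_re.comp (continuous_const.mul (ex_cont _))).measurable, ‖qq h Λ p (i + 1)‖, fun θ => ?_⟩
      have := Complex.abs_re_le_norm (qq h Λ p (i + 1) * ex ((i : ℤ) + 2) θ)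
      rwa [norm_mul, ex_norm, mul_one] at this
    exact (hB.mul this).int _ _

theorem square_split (h Λ : ℝ) (hΛ2 : Λ ≤ 3 / 2) (p : ℂ) (J : ℕ) :
    ∫ θ in (-π)..π, s2 h θ * bd (harm (qq h Λ p) (4 * J + 1)) θ ^ 2 =
      (∫ θ in (-π)..π, s2 h θ * pp p θ * pp p θ) - 8 * π * Λ * SS h Λ p J +
      ∫ θ in (-π)..π, s2 h θ * (ww h Λ p J θ * ww h Λ p J θ) := by
  have hB : BM (fun θ => s2 h θ * pp p θ) := (s2_BM h).mul (pp_BM p)
  have hw := ww_BM h Λ p J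
  have e : ∀ θ, s2 h θ * bd (harm (qq h Λ p) (4 * J + 1)) θ ^ 2 =
      s2 h θ * pp p θ * pp p θ + 2 * (s2 h θ * pp p θ * ww h Λ p J θ) + s2 h θ * (ww h Λ p J θ * ww h Λ p J θ) := by
    intro θ; rw [bd_split]; ring
  simp only [e]
  have i1 := (hB.mul (pp_BM p)).int (-π) π
  have i2 := ((hB.mul hw).int (-π) π).const_mul 2
  have i3 := ((s2_BM h).mul (hw.mul hw)).int (-π) π
  rw [intervalIntegral.integral_add (i1.add i2) i3, intervalIntegral.integral_add i1 i2,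
    intervalIntegral.integral_const_mul, cross_term h Λ hΛ2 p J]
  ring

end Pool.Agent.R223.Stk
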