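import Mathlib
import Pool.Agent.R223.Stk.Up2

set_option autoImplicit false
open MeasureTheory Set Real
open scoped ComplexConjugate

namespace Pool.Agent.R223.Stk
open Pool.Agent.R223.StkDefs

theorem ex_re_im (k : ℤ) (θ : ℝ) : ex k θ = ⟨Real.cos (k * θ), Real.sin (k * θ)⟩ := by
  have := exp_cs ((k:ℝ) * θ)
  rw [← this]
  unfold ex
  congr 1
  push_cast; ring

theorem sg_zero (h : ℝ) : sg h 0 = ((h / π : ℝ) : ℂ) := by
  unfold sg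
  have hpi : (π : ℂ) ≠ 0 := by exact_mod_cast pi_ne_zero
  simp only [neg_zero, ex_zero]
  rw [intervalIntegral.integral_const, Complex.real_smul]
  push_cast
  field_simp; ring

theorem cf_s2_zero (h : ℝ) (h0 : 0 < h) (h1 : h < π / 4) : cf (s2 h) 0 = ((2 * h / π : ℝ) : ℂ) := by
  rw [cf_s2 h h0 h1, sg_zero, neg_zero, ex_zero]
  push_cast; ring

theorem cf_s2_two (h : ℝ) (h0 : 0 < h) (h1 : h < π / 4) : cf (s2 h) 2 = 0 := by
  rw [cf_s2 h h0 h1]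
  have : ex (-2) (π / 2) = -1 := by
    rw [ex_re_im]
    have e : (((-2 : ℤ) : ℝ) * (π / 2)) = -π := by push_cast; ring
    rw [e, Real.cos_neg, Real.sin_neg, Real.cos_pi, Real.sin_pi, neg_zero]
    apply Complex.ext <;> simp
  rw [this]; simp

theorem cf_s2_norm (h : ℝ) (h0 : 0 < h) (h1 : h < π / 4) (k : ℤ) : ‖cf (s2 h) k‖ ≤ 2 * (h / π) := by
  rw [cf_s2 h h0 h1, norm_mul]
  have h2 : ‖1 + ex (-k) (π / 2)‖ ≤ 2 := by
    refine (norm_add_le _ _).trans ?_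
    rw [ex_norm, norm_one]; norm_num
  exact mul_le_mul h2 (sg_norm h h0 k) (norm_nonneg _) (by norm_num)

theorem C_norm (h : ℝ) (h0 : 0 < h) (h1 : h < π / 4) (p : ℂ) (n : ℤ) :
    ‖cf (fun θ => s2 h θ * pp p θ) n‖ ≤ 4 * (h / π) * ‖p‖ := by
  rw [cf_mul_pp _ (s2_BM h)]
  refine (norm_add_le _ _).trans ?_
  rw [norm_mul, norm_mul, RCLike.norm_conj]
  have a1 := mul_le_mul_of_nonneg_left (cf_s2_norm h h0 h1 (n - 1)) (norm_nonneg p)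
  have a2 := mul_le_mul_of_nonneg_left (cf_s2_norm h h0 h1 (n + 1)) (norm_nonneg p)
  linarith

theorem pp_sq_int (h : ℝ) (h0 : 0 < h) (h1 : h < π / 4) (p : ℂ) :
    ∫ θ in (-π)..π, s2 h θ * pp p θ * pp p θ = 8 * h * ‖p‖ ^ 2 := by
  have hB : BM (fun θ => s2 h θ * pp p θ) := (s2_BM h).mul (pp_BM p)
  have e := int_mul_pp _ hB p
  rw [cf_mul_pp _ (s2_BM h)] at e
  have e2 : (1:ℤ) + 1 = 2 := by norm_num
  rw [sub_self, e2, cf_s2_zero h h0 h1, cf_s2_two h h0 h1, mul_zero, add_zero] at e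
  have e3 : (p * conj (p * ((2 * h / π : ℝ) : ℂ))).re = 2 * h / π * ‖p‖ ^ 2 := by
    have : p * conj (p * ((2 * h / π : ℝ) : ℂ)) = ((2 * h / π * ‖p‖ ^ 2 : ℝ) : ℂ) := by
      rw [map_mul, Complex.conj_ofReal, ← mul_assoc, Complex.mul_conj, Complex.normSq_eq_norm_sq]
      push_cast; ring
    rw [this, Complex.ofReal_re]
  rw [e3] at e
  have hpi : π ≠ 0 := pi_ne_zero
  have e4 : ∫ θ in (-π)..π, s2 h θ * pp p θ * pp p θ =
      2 * π * ((2 * π)⁻¹ * ∫ θ in (-π)..π, s2 h θ * pp p θ * pp p θ) := by field_simp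
  rw [e4, e]
  field_simp
  ring

/-- the leading part of the coefficient -/
noncomputable def V0 (h : ℝ) (p : ℂ) (n : ℤ) : ℂ := ((h / π : ℝ) : ℂ) *
  (p * (1 + ex (-(n - 1)) (π / 2)) + conj p * (1 + ex (-(n + 1)) (π / 2)))

/-- the weight -/
noncomputable def wt (p : ℂ) (n : ℕ) : ℝ := 4 * ‖p‖ ^ 2 - 8 * p.re * p.im * Real.cos (n * (π / 2))

theorem V0_sq (h : ℝ) (p : ℂ) (n : ℕ) : ‖V0 h p n‖ ^ 2 = (h / π) ^ 2 * wt p n := by
  unfold V0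
  rw [norm_mul, Complex.norm_real, mul_pow, Real.norm_eq_abs, sq_abs]
  congr 1
  have a1 : ex (-((n:ℤ) - 1)) (π / 2) = ⟨Real.sin (n * (π / 2)), Real.cos (n * (π / 2))⟩ := by
    rw [ex_re_im]
    have e : (((-((n:ℤ) - 1) : ℤ) : ℝ) * (π / 2)) = π / 2 - n * (π / 2) := by push_cast; ring
    rw [e, Real.cos_pi_div_two_sub, Real.sin_pi_div_two_sub]
  have a2 : ex (-((n:ℤ) + 1)) (π / 2) = ⟨-Real.sin (n * (π / 2)), -Real.cos (n * (π / 2))⟩ := by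
    rw [ex_re_im]
    have e : (((-((n:ℤ) + 1) : ℤ) : ℝ) * (π / 2)) = -(n * (π / 2) + π / 2) := by push_cast; ring
    rw [e, Real.cos_neg, Real.sin_neg, Real.cos_add_pi_div_two, Real.sin_add_pi_div_two]
  rw [a1, a2, ← Complex.normSq_eq_norm_sq]
  unfold wt
  rw [← Complex.normSq_eq_norm_sq]
  have hcs := Real.sin_sq_add_cos_sq (n * (π / 2))
  simp only [Complex.normSq_apply, Complex.add_re, Complex.add_im, Complex.mul_re, Complex.mul_im,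
    Complex.one_re, Complex.one_im, Complex.conj_re, Complex.conj_im]
  linear_combination (4 * p.im ^ 2) * hcs

theorem wt_nonneg (p : ℂ) (n : ℕ) : 0 ≤ wt p n := by
  have h := V0_sq π p n
  rw [div_self pi_ne_zero, one_pow, one_mul] at h
  rw [← h]; positivity

theorem wt_le (p : ℂ) (n : ℕ) : wt p n ≤ 9 * ‖p‖ ^ 2 := by
  unfold wt
  rw [← Complex.normSq_eq_norm_sq, Complex.normSq_apply]
  have h1 := Real.neg_one_le_cos (n * (π / 2))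
  have h2 := Real.cos_le_one (n * (π / 2))
  nlinarith [sq_nonneg (p.re + p.im), sq_nonneg (p.re - p.im), sq_nonneg p.re, sq_nonneg p.im]

theorem wt_four (p : ℂ) (n : ℕ) : wt p n + wt p (n + 1) + wt p (n + 2) + wt p (n + 3) = 16 * ‖p‖ ^ 2 := by
  unfold wt
  have e1 : (((n + 1 : ℕ) : ℝ) * (π / 2)) = n * (π / 2) + π / 2 := by push_cast; ring
  have e2 : (((n + 2 : ℕ) : ℝ) * (π / 2)) = n * (π / 2) + π := by push_cast; ring
  have e3 : (((n + 3 : ℕ) : ℝ) * (π / 2)) = (n * (π / 2) + π / 2) + π := by push_cast; ring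
  rw [e1, e2, e3, Real.cos_add_pi, Real.cos_add_pi]
  ring

theorem C_close (h : ℝ) (h0 : 0 < h) (h1 : h < π / 4) (p : ℂ) (n : ℕ) (hn : 1 ≤ n) :
    ‖cf (fun θ => s2 h θ * pp p θ) n - V0 h p n‖ ≤ 4 * n * ‖p‖ * (h ^ 2 / π) := by
  have e : cf (fun θ => s2 h θ * pp p θ) n - V0 h p n =
      p * ((1 + ex (-((n:ℤ) - 1)) (π / 2)) * (sg h ((n:ℤ) - 1) - ((h / π : ℝ) : ℂ))) +
      conj p * ((1 + ex (-((n:ℤ) + 1)) (π / 2)) * (sg h ((n:ℤ) + 1) - ((h / π : ℝ) : ℂ))) := by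
    rw [cf_mul_pp _ (s2_BM h), cf_s2 h h0 h1, cf_s2 h h0 h1]
    unfold V0
    ring
  rw [e]
  refine (norm_add_le _ _).trans ?_
  rw [norm_mul, norm_mul, norm_mul, norm_mul, RCLike.norm_conj]
  have h2 : ∀ k : ℤ, ‖1 + ex (-k) (π / 2)‖ ≤ 2 := fun k => by
    refine (norm_add_le _ _).trans ?_
    rw [ex_norm, norm_one]; norm_num
  have hn' : (1:ℝ) ≤ n := by exact_mod_cast hn
  have a1 := sg_close h h0 ((n:ℤ) - 1)
  have a2 := sg_close h h0 ((n:ℤ) + 1)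
  have c1 : |(((n:ℤ) - 1 : ℤ) : ℝ)| = (n:ℝ) - 1 := by
    push_cast; rw [abs_of_nonneg (by linarith)]
  have c2 : |(((n:ℤ) + 1 : ℤ) : ℝ)| = (n:ℝ) + 1 := by
    push_cast; rw [abs_of_nonneg (by linarith)]
  rw [c1] at a1
  rw [c2] at a2
  have b1 := mul_le_mul (h2 ((n:ℤ) - 1)) a1 (norm_nonneg _) (by norm_num)
  have b2 := mul_le_mul (h2 ((n:ℤ) + 1)) a2 (norm_nonneg _) (by norm_num)
  have d1 := mul_le_mul_of_nonneg_left b1 (norm_nonneg p)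
  have d2 := mul_le_mul_of_nonneg_left b2 (norm_nonneg p)
  have e4 : ‖p‖ * (2 * (((n:ℝ) - 1) * h ^ 2 / π)) + ‖p‖ * (2 * (((n:ℝ) + 1) * h ^ 2 / π)) = 4 * n * ‖p‖ * (h ^ 2 / π) := by
    ring
  linarith

theorem C_sq_lower (h : ℝ) (h0 : 0 < h) (h1 : h < π / 4) (p : ℂ) (n : ℕ) (hn : 1 ≤ n) :
    (h / π) ^ 2 * wt p n - 24 * n * ‖p‖ ^ 2 * h * (h / π) ^ 2 ≤ ‖cf (fun θ => s2 h θ * pp p θ) n‖ ^ 2 := by
  have hc := C_close h h0 h1 p n hn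
  have hV := V0_sq h p n
  have hV3 : ‖V0 h p n‖ ≤ 3 * (h / π) * ‖p‖ := by
    refine abs_le_of_sq_le_sq' ?_ (by positivity) |>.2
    rw [hV]
    have := mul_le_mul_of_nonneg_left (wt_le p n) (sq_nonneg (h / π))
    nlinarith
  set C := cf (fun θ => s2 h θ * pp p θ) n with hC
  set V := V0 h p n with hVdef
  have h2 : ‖V‖ ≤ ‖C‖ + ‖C - V‖ := by
    have := norm_sub_le C (C - V)
    rwa [sub_sub_cancel] at this
  have h3 : ‖V‖ ^ 2 - 2 * ‖V‖ * ‖C - V‖ ≤ ‖C‖ ^ 2 := by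
    rcases le_or_gt ‖V‖ ‖C - V‖ with h4 | h4
    · nlinarith [norm_nonneg V, norm_nonneg C, norm_nonneg (C - V)]
    · nlinarith [norm_nonneg V, norm_nonneg C, norm_nonneg (C - V)]
  rw [← hV]
  refine le_trans ?_ h3
  have h5 : ‖V‖ * ‖C - V‖ ≤ (3 * (h / π) * ‖p‖) * (4 * n * ‖p‖ * (h ^ 2 / π)) :=
    mul_le_mul hV3 hc (norm_nonneg _) (by positivity)
  have h6 : 2 * ((3 * (h / π) * ‖p‖) * (4 * n * ‖p‖ * (h ^ 2 / π))) = 24 * n * ‖p‖ ^ 2 * h * (h / π) ^ 2 := by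
    field_simp; ring
  linarith

theorem wt_sum (Λ : ℝ) (hΛ1 : 1 ≤ Λ) (hΛ2 : Λ ≤ 3 / 2) (p : ℂ) (J : ℕ) :
    4 * ‖p‖ ^ 2 * ∑ j ∈ Finset.range J, 1 / ((j:ℝ) + 1) ≤
      ∑ i ∈ Finset.range (4 * J), wt p (i + 2) / ((i:ℝ) + 2 - Λ) := by
  induction J with
  | zero => simp
  | succ J ih =>
    have e : 4 * (J + 1) = 4 * J + 1 + 1 + 1 + 1 := by ring
    rw [Finset.sum_range_succ (fun j : ℕ => 1 / ((j:ℝ) + 1)) J, mul_add (4 * ‖p‖ ^ 2),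
      e, Finset.sum_range_succ _ (4 * J + 1 + 1 + 1), Finset.sum_range_succ _ (4 * J + 1 + 1),
      Finset.sum_range_succ _ (4 * J + 1), Finset.sum_range_succ _ (4 * J)]
    have hJ : (0:ℝ) ≤ J := Nat.cast_nonneg J
    have hd : 0 < 4 * (J:ℝ) + 5 - Λ := by linarith
    have g : ∀ (r : ℕ), r ≤ 3 → wt p (4 * J + 2 + r) / (4 * (J:ℝ) + 5 - Λ) ≤
        wt p (4 * J + r + 2) / (((4 * J + r : ℕ) : ℝ) + 2 - Λ) := by
      intro r hr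
      have e1 : 4 * J + 2 + r = 4 * J + r + 2 := by ring
      rw [e1]
      have hr' : (r:ℝ) ≤ 3 := by exact_mod_cast hr
      have hr0 : (0:ℝ) ≤ r := Nat.cast_nonneg r
      push_cast
      exact div_le_div_of_nonneg_left (wt_nonneg p _) (by linarith) (by linarith)
    have g0 := g 0 (by norm_num)
    have g1 := g 1 (by norm_num)
    have g2 := g 2 (by norm_num)
    have g3 := g 3 (by norm_num)
    have hsum : wt p (4 * J + 2 + 0) / (4 * (J:ℝ) + 5 - Λ) + wt p (4 * J + 2 + 1) / (4 * (J:ℝ) + 5 - Λ) +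
        wt p (4 * J + 2 + 2) / (4 * (J:ℝ) + 5 - Λ) + wt p (4 * J + 2 + 3) / (4 * (J:ℝ) + 5 - Λ) =
        16 * ‖p‖ ^ 2 / (4 * (J:ℝ) + 5 - Λ) := by
      rw [← add_div, ← add_div, ← add_div, add_zero, wt_four]
    have hle : 4 * ‖p‖ ^ 2 * (1 / ((J:ℝ) + 1)) ≤ 16 * ‖p‖ ^ 2 / (4 * (J:ℝ) + 5 - Λ) := by
      have : 4 * ‖p‖ ^ 2 * (1 / ((J:ℝ) + 1)) = 16 * ‖p‖ ^ 2 / (4 * ((J:ℝ) + 1)) := by
        field_simp; ring
      rw [this]
      exact div_le_div_of_nonneg_left (by positivity) hd (by linarith)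
    have c0 : (4 * J + 0 : ℕ) = 4 * J := by ring
    have c1 : (4 * J + 1 : ℕ) = 4 * J + 1 := rfl
    have c2 : (4 * J + 2 : ℕ) = 4 * J + 1 + 1 := rfl
    have c3 : (4 * J + 3 : ℕ) = 4 * J + 1 + 1 + 1 := rfl
    rw [c0] at g0
    rw [c2] at g2
    rw [c3] at g3
    linarith

theorem SS_lower (h Λ : ℝ) (h0 : 0 < h) (h1 : h < π / 4) (hΛ1 : 1 ≤ Λ) (hΛ2 : Λ ≤ 3 / 2) (p : ℂ) (J : ℕ) :
    (h / π) ^ 2 * ‖p‖ ^ 2 * (4 * (∑ j ∈ Finset.range J, 1 / ((j:ℝ) + 1)) - 384 * h * J) ≤ SS h Λ p J := by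
  have hterm : ∀ i ∈ Finset.range (4 * J), (h / π) ^ 2 * (wt p (i + 2) / ((i:ℝ) + 2 - Λ)) -
      96 * ‖p‖ ^ 2 * h * (h / π) ^ 2 ≤
      ‖cf (fun θ => s2 h θ * pp p θ) ((i : ℤ) + 2)‖ ^ 2 / ((i:ℝ) + 2 - Λ) := by
    intro i _
    have hi : (0:ℝ) ≤ i := Nat.cast_nonneg i
    have hd : 0 < (i:ℝ) + 2 - Λ := by linarith
    have h2 := C_sq_lower h h0 h1 p (i + 2) (by omega)
    have e : (((i + 2 : ℕ)) : ℤ) = (i : ℤ) + 2 := by push_cast; ring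
    rw [e] at h2
    have h3 := div_le_div_of_nonneg_right h2 hd.le
    refine le_trans ?_ h3
    rw [sub_div, ← mul_div_assoc]
    have h4 : 24 * ((i + 2 : ℕ) : ℝ) * ‖p‖ ^ 2 * h * (h / π) ^ 2 / ((i:ℝ) + 2 - Λ) ≤ 96 * ‖p‖ ^ 2 * h * (h / π) ^ 2 := by
      rw [div_le_iff₀ hd]
      have h5 : ((i + 2 : ℕ) : ℝ) ≤ 4 * ((i:ℝ) + 2 - Λ) := by push_cast; linarith
      have h6 : 0 ≤ 24 * ‖p‖ ^ 2 * h * (h / π) ^ 2 := by positivity
      have h7 := mul_le_mul_of_nonneg_left h5 h6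
      linarith
    linarith
  have hsum := Finset.sum_le_sum hterm
  rw [Finset.sum_sub_distrib, ← Finset.mul_sum, Finset.sum_const, Finset.card_range, nsmul_eq_mul] at hsum
  have hw := mul_le_mul_of_nonneg_left (wt_sum Λ hΛ1 hΛ2 p J) (sq_nonneg (h / π))
  unfold SS
  refine le_trans ?_ hsum
  push_cast
  linarith

theorem SS_nonneg (h Λ : ℝ) (hΛ2 : Λ ≤ 3 / 2) (p : ℂ) (J : ℕ) : 0 ≤ SS h Λ p J := by
  unfold SS
  refine Finset.sum_nonneg fun i _ => ?_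
  have hi : (0:ℝ) ≤ i := Nat.cast_nonneg i
  have hd : 0 < (i:ℝ) + 2 - Λ := by linarith
  positivity

theorem ww_bound (h Λ : ℝ) (h0 : 0 < h) (h1 : h < π / 4) (hΛ1 : 1 ≤ Λ) (hΛ2 : Λ ≤ 3 / 2) (p : ℂ) (J : ℕ) (θ : ℝ) :
    |ww h Λ p J θ| ≤ 24 * (h / π) * ‖p‖ * ∑ i ∈ Finset.range (4 * J), 1 / ((i:ℝ) + 1) := by
  unfold ww
  rw [Finset.mul_sum]
  refine (Finset.abs_sum_le_sum_abs _ _).trans (Finset.sum_le_sum fun i _ => ?_)
  have hi : (0:ℝ) ≤ i := Nat.cast_nonneg i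
  have hd : 0 < (i:ℝ) + 2 - Λ := by linarith
  have h2 := Complex.abs_re_le_norm (qq h Λ p (i + 1) * ex ((i : ℤ) + 2) θ)
  rw [norm_mul, ex_norm, mul_one, qq_norm h Λ hΛ1 hΛ2] at h2
  refine h2.trans ?_
  have h3 := C_norm h h0 h1 p ((i : ℤ) + 2)
  have h4 : 2 * Λ * ‖cf (fun θ => s2 h θ * pp p θ) ((i : ℤ) + 2)‖ ≤ 3 * (4 * (h / π) * ‖p‖) :=
    mul_le_mul (by linarith) h3 (norm_nonneg _) (by norm_num)
  have h5 : 1 / ((i:ℝ) + 2 - Λ) ≤ 2 * (1 / ((i:ℝ) + 1)) := by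
    rw [mul_one_div, div_le_div_iff₀ hd (by linarith)]
    linarith
  calc 2 * Λ * ‖cf (fun θ => s2 h θ * pp p θ) ((i : ℤ) + 2)‖ / ((i:ℝ) + 2 - Λ) =
        2 * Λ * ‖cf (fun θ => s2 h θ * pp p θ) ((i : ℤ) + 2)‖ * (1 / ((i:ℝ) + 2 - Λ)) := by ring
    _ ≤ 3 * (4 * (h / π) * ‖p‖) * (2 * (1 / ((i:ℝ) + 1))) := mul_le_mul h4 h5 (by positivity) (by positivity)
    _ = 24 * (h / π) * ‖p‖ * (1 / ((i:ℝ) + 1)) := by ring

end Pool.Agent.R223.Stk
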