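import Mathlib
import Pool.Agent.R223.Stk.Up3

set_option autoImplicit false
open MeasureTheory Set Real
open scoped ComplexConjugate

namespace Pool.Agent.R223.Stk
open Pool.Agent.R223.StkDefs

theorem eps_facts (ε L : ℝ) (h0 : 0 < ε) (hLdef : L = Real.log (1 / ε)) (hL : 10000 ≤ L) :
    ε * L ^ 2 ≤ 4 ∧ ε ≤ 1 / 10000000 ∧ ε * L ≤ 1 / 2500 := by
  have hx : 0 < 1 / ε := by positivity
  have h1 : L ≤ 2 * Real.sqrt (1 / ε) := by
    have h2 : Real.log (Real.sqrt (1 / ε)) ≤ Real.sqrt (1 / ε) - 1 :=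
      Real.log_le_sub_one_of_pos (Real.sqrt_pos.2 hx)
    rw [Real.log_sqrt hx.le, ← hLdef] at h2
    linarith
  have h2 : L ^ 2 ≤ 4 * (1 / ε) := by
    have h3 : L ^ 2 ≤ (2 * Real.sqrt (1 / ε)) ^ 2 := pow_le_pow_left₀ (by linarith) h1 2
    rw [mul_pow, Real.sq_sqrt hx.le] at h3
    linarith
  have h3 : ε * L ^ 2 ≤ 4 := by
    have := mul_le_mul_of_nonneg_left h2 h0.le
    have e : ε * (4 * (1 / ε)) = 4 := by field_simp
    linarith
  refine ⟨h3, ?_, ?_⟩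
  · nlinarith
  · nlinarith

theorem harm_eq (n : ℕ) : ((harmonic n : ℚ) : ℝ) = ∑ i ∈ Finset.range n, 1 / ((i:ℝ) + 1) := by
  unfold harmonic
  push_cast
  refine Finset.sum_congr rfl fun i _ => ?_
  rw [one_div]

theorem floor_facts (ε L : ℝ) (h0 : 0 < ε) (hLdef : L = Real.log (1 / ε)) (hε : ε ≤ 1 / 10000000) :
    ∃ J : ℕ, 1 ≤ J ∧ ε * J ≤ 1 ∧ L ≤ ∑ j ∈ Finset.range J, 1 / ((j:ℝ) + 1) ∧
      ∑ i ∈ Finset.range (4 * J), 1 / ((i:ℝ) + 1) ≤ L + 3 := by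
  have hx : 0 < 1 / ε := by positivity
  have hx1 : 1 ≤ 1 / ε := by rw [le_div_iff₀ h0]; linarith
  refine ⟨⌊1 / ε⌋₊, ?_, ?_, ?_, ?_⟩
  · exact Nat.le_floor (by simpa using hx1)
  · have := Nat.floor_le hx.le
    have h2 := mul_le_mul_of_nonneg_left this h0.le
    have e : ε * (1 / ε) = 1 := by field_simp
    linarith
  · rw [← harm_eq]
    refine le_trans ?_ (log_add_one_le_harmonic _)
    rw [hLdef]
    have := Nat.lt_floor_add_one (1 / ε)
    push_cast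
    exact Real.log_le_log hx this.le
  · rw [← harm_eq]
    refine (harmonic_le_one_add_log _).trans ?_
    have hJ : (1:ℝ) ≤ ⌊1 / ε⌋₊ := by
      have : 1 ≤ ⌊1 / ε⌋₊ := Nat.le_floor (by simpa using hx1)
      exact_mod_cast this
    push_cast
    rw [Real.log_mul (by norm_num) (by positivity)]
    have h4 : Real.log 4 ≤ 2 := by
      have : Real.log 4 = 2 * Real.log 2 := by
        rw [show (4:ℝ) = 2 ^ 2 by norm_num, Real.log_pow]; norm_num
      rw [this]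
      linarith [Real.log_two_lt_d9]
    have h5 : Real.log (⌊1 / ε⌋₊ : ℝ) ≤ L := by
      rw [hLdef]
      exact Real.log_le_log (by linarith) (Nat.floor_le hx.le)
    linarith

theorem upper_main (ε L Λ : ℝ) (h0 : 0 < ε) (hLdef : L = Real.log (1 / ε)) (hL : 10000 ≤ L)
    (hΛ : Λ = 1 + ε - (9 / 10) * ε ^ 2 * L) :
    1 ≤ Λ ∧ Λ ≤ 3 / 2 ∧ ∃ J : ℕ, ∀ (p : ℂ) (c0 : ℝ), Dir (harm (qq (π * ε / 2) Λ p) (4 * J + 1)) ≤
      Λ * ∫ θ in (-π)..π, (1 - s2 (π * ε / 2) θ) * (c0 + bd (harm (qq (π * ε / 2) Λ p) (4 * J + 1)) θ) ^ 2 := by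
  obtain ⟨f1, f2, f3⟩ := eps_facts ε L h0 hLdef hL
  have hπ := pi_pos
  have hπ3 : π < 3.1416 := pi_lt_d4
  have hΛ1 : 1 ≤ Λ := by
    have : ε ^ 2 * L = ε * (ε * L) := by ring
    have h2 : ε * (ε * L) ≤ ε * (1 / 2500) := mul_le_mul_of_nonneg_left f3 h0.le
    rw [hΛ]; nlinarith
  have hL0 : 0 ≤ L := by linarith
  have hΛ2 : Λ ≤ 3 / 2 := by
    have : 0 ≤ ε ^ 2 * L := by positivity
    rw [hΛ]; linarith
  obtain ⟨J, hJ1, hJ2, hJ3, hJ4⟩ := floor_facts ε L h0 hLdef f2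
  refine ⟨hΛ1, hΛ2, J, fun p c0 => ?_⟩
  set h : ℝ := π * ε / 2 with hh
  have hh0 : 0 < h := by positivity
  have hh1 : h < π / 4 := by
    rw [hh]; nlinarith
  have hhπ : h / π = ε / 2 := by rw [hh]; field_simp
  have hid := energy_id (s2 h) (s2_BM h) (qq h Λ p) (4 * J + 1) c0 Λ
  rw [s2_total h hh0 hh1, quad_sum h Λ hΛ1 hΛ2 p J, square_split h Λ hΛ2 p J, pp_sq_int h hh0 hh1 p] at hid
  set S := SS h Λ p J with hS
  have hS0 : 0 ≤ S := SS_nonneg h Λ hΛ2 p J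
  have hSlow := SS_lower h Λ hh0 hh1 hΛ1 hΛ2 p J
  rw [hhπ] at hSlow
  set g := bd (harm (qq h Λ p) (4 * J + 1)) with hg
  set K := ∫ θ in (-π)..π, s2 h θ * g θ with hK
  set W2 := ∫ θ in (-π)..π, s2 h θ * (ww h Λ p J θ * ww h Λ p J θ) with hW2
  set P := ‖p‖ with hP
  have hP0 : 0 ≤ P := norm_nonneg p
  -- bound on the corrector
  have hw : ∀ θ, |ww h Λ p J θ| ≤ 12 * ε * P * (L + 3) := by
    intro θ
    have h1 := ww_bound h Λ hh0 hh1 hΛ1 hΛ2 p J θ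
    rw [hhπ] at h1
    refine h1.trans ?_
    have h2 := mul_le_mul_of_nonneg_left hJ4 (by positivity : 0 ≤ 24 * (ε / 2) * P)
    refine h2.trans (le_of_eq (by ring))
  have hww2 : ∀ θ, |ww h Λ p J θ * ww h Λ p J θ| ≤ (12 * ε * P * (L + 3)) ^ 2 := by
    intro θ
    rw [abs_mul, ← sq]
    exact pow_le_pow_left₀ (abs_nonneg _) (hw θ) 2
  have hW2b : W2 ≤ 1728 * π * (ε ^ 2 * P ^ 2) := by
    have h1 := s2_bound h hh0 hh1 _ ((ww_BM h Λ p J).mul (ww_BM h Λ p J)) _ hww2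
    have h2 := (abs_le.1 h1).2
    have h3 : ε * (L + 3) ^ 2 ≤ 6 := by nlinarith
    have h4 : 4 * h * (12 * ε * P * (L + 3)) ^ 2 = 288 * π * (ε ^ 2 * P ^ 2) * (ε * (L + 3) ^ 2) := by
      rw [hh]; ring
    have h5 := mul_le_mul_of_nonneg_left h3 (by positivity : 0 ≤ 288 * π * (ε ^ 2 * P ^ 2))
    rw [h4] at h2
    have : 288 * π * (ε ^ 2 * P ^ 2) * 6 = 1728 * π * (ε ^ 2 * P ^ 2) := by ring
    linarith
  have hKb : K ^ 2 ≤ 36 * π ^ 2 * (ε ^ 2 * P ^ 2) := by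
    have h1 : ∀ θ, |g θ| ≤ 3 * P := by
      intro θ
      rw [hg, bd_split]
      refine (abs_add_le _ _).trans ?_
      have h2 : |pp p θ| ≤ 2 * P := by
        unfold pp
        rw [abs_mul, abs_two]
        have := Complex.abs_re_le_norm (p * ex 1 θ)
        rw [norm_mul, ex_norm, mul_one] at this
        linarith
      have h3 := hw θ
      have h4 : 12 * ε * P * (L + 3) ≤ P := by
        have h5 : 12 * (ε * L + 3 * ε) ≤ 1 := by linarith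
        have h6 := mul_le_mul_of_nonneg_left h5 hP0
        have : 12 * ε * P * (L + 3) = P * (12 * (ε * L + 3 * ε)) := by ring
        linarith
      linarith
    have h2 := s2_bound h hh0 hh1 g (harm_bdBM _ _) (3 * P) h1
    have h3 : 4 * h * (3 * P) = 6 * π * ε * P := by rw [hh]; ring
    rw [h3] at h2
    calc K ^ 2 = |K| ^ 2 := (sq_abs _).symm
      _ ≤ (6 * π * ε * P) ^ 2 := pow_le_pow_left₀ (abs_nonneg _) h2 2
      _ = 36 * π ^ 2 * (ε ^ 2 * P ^ 2) := by ring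
  -- lower bound for the gain
  have hSb : ε ^ 2 * P ^ 2 * (L - 151) ≤ S := by
    refine le_trans ?_ hSlow
    have h1 : (ε / 2) ^ 2 * P ^ 2 * (4 * (∑ j ∈ Finset.range J, 1 / ((j:ℝ) + 1)) - 384 * h * J) =
        ε ^ 2 * P ^ 2 * ((∑ j ∈ Finset.range J, 1 / ((j:ℝ) + 1)) - 48 * π * (ε * J)) := by
      rw [hh]; ring
    rw [h1]
    refine mul_le_mul_of_nonneg_left ?_ (by positivity)
    have h2 : 48 * π * (ε * J) ≤ 48 * π * 1 := mul_le_mul_of_nonneg_left hJ2 (by positivity)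
    linarith
  -- the constant
  have hc : 2 * c0 * K - 2 * π * (1 - ε) * c0 ^ 2 ≤ 36 * π * (ε ^ 2 * P ^ 2) := by
    have h1 : 0 ≤ (π * c0 - K) ^ 2 := sq_nonneg _
    have h2 : 2 * c0 * K ≤ π * c0 ^ 2 + K ^ 2 / π := by
      have h3 : π * c0 ^ 2 + K ^ 2 / π - 2 * c0 * K = (π * c0 - K) ^ 2 / π := by
        field_simp; ring
      have h4 : 0 ≤ (π * c0 - K) ^ 2 / π := div_nonneg h1 hπ.le
      linarith
    have h3 : K ^ 2 / π ≤ 36 * π * (ε ^ 2 * P ^ 2) := by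
      rw [div_le_iff₀ hπ]
      refine hKb.trans (le_of_eq (by ring))
    have h4 : π * c0 ^ 2 ≤ 2 * π * (1 - ε) * c0 ^ 2 := by
      have h5 : 0 ≤ π * c0 ^ 2 * (1 - 2 * ε) := by
        have : 0 ≤ 1 - 2 * ε := by linarith
        positivity
      linarith
    linarith
  have hmid : 1 - Λ + Λ * ε ≤ ε ^ 2 * (1 + (9 / 10) * L) := by
    have h1 : 0 ≤ ε ^ 2 * L * ε := by positivity
    rw [hΛ]; nlinarith
  have hX : 0 ≤ ε ^ 2 * P ^ 2 := by positivity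
  set X := ε ^ 2 * P ^ 2 with hXdef
  have hmid2 : 4 * π * ((1 - Λ + Λ * ε) * P ^ 2) ≤ 4 * π * (X * (1 + (9 / 10) * L)) := by
    refine mul_le_mul_of_nonneg_left ?_ (by positivity)
    have := mul_le_mul_of_nonneg_right hmid (sq_nonneg P)
    refine this.trans (le_of_eq ?_)
    rw [hXdef]; ring
  have hΛS : S ≤ Λ ^ 2 * S := by
    have h1 : 1 ≤ Λ ^ 2 := one_le_pow₀ hΛ1
    have h2 := mul_le_mul_of_nonneg_right h1 hS0
    rwa [one_mul] at h2
  have hΛS2 : 4 * π * (X * (L - 151)) ≤ 4 * π * (Λ ^ 2 * S) :=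
    mul_le_mul_of_nonneg_left (hSb.trans hΛS) (by positivity)
  have hΛc : Λ * (2 * c0 * K - 2 * π * (1 - ε) * c0 ^ 2) ≤ 54 * π * X := by
    have h1 : Λ * (2 * c0 * K - 2 * π * (1 - ε) * c0 ^ 2) ≤ Λ * (36 * π * X) :=
      mul_le_mul_of_nonneg_left hc (by linarith)
    have h2 : Λ * (36 * π * X) ≤ 3 / 2 * (36 * π * X) := mul_le_mul_of_nonneg_right hΛ2 (by positivity)
    linarith
  have hΛW : Λ * W2 ≤ 2592 * π * X := by
    have h1 : Λ * W2 ≤ Λ * (1728 * π * X) := mul_le_mul_of_nonneg_left hW2b (by linarith)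
    have h2 : Λ * (1728 * π * X) ≤ 3 / 2 * (1728 * π * X) := mul_le_mul_of_nonneg_right hΛ2 (by positivity)
    linarith
  have hfinal : π * X * (3254 - (4 / 10) * L) ≤ 0 := by
    have : 3254 - (4 / 10) * L ≤ 0 := by linarith
    exact mul_nonpos_of_nonneg_of_nonpos (by positivity) this
  have e4h : 4 * h = 2 * π * ε := by rw [hh]; ring
  have e8h : 8 * h = 4 * π * ε := by rw [hh]; ring
  rw [e4h, e8h] at hid
  have hid2 : Dir (harm (qq h Λ p) (4 * J + 1)) -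
      Λ * ∫ θ in (-π)..π, (1 - s2 h θ) * (c0 + g θ) ^ 2 =
      Λ * (2 * c0 * K - 2 * π * (1 - ε) * c0 ^ 2) + 4 * π * ((1 - Λ + Λ * ε) * P ^ 2) -
        4 * π * (Λ ^ 2 * S) + Λ * W2 := by
    rw [hid]; ring
  have hsum : Λ * (2 * c0 * K - 2 * π * (1 - ε) * c0 ^ 2) + 4 * π * ((1 - Λ + Λ * ε) * P ^ 2) -
        4 * π * (Λ ^ 2 * S) + Λ * W2 ≤ π * X * (3254 - (4 / 10) * L) := by
    have : π * X * (3254 - (4 / 10) * L) = 54 * π * X + 4 * π * (X * (1 + (9 / 10) * L)) -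
        4 * π * (X * (L - 151)) + 2592 * π * X := by ring
    linarith
  linarith

end Pool.Agent.R223.Stk
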