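import Mathlib
import Pool.Agent.R223.Stk.Up4

set_option autoImplicit false
open MeasureTheory Set Real
open scoped ComplexConjugate

namespace Pool.Agent.R223.Stk
open Pool.Agent.R223.StkDefs

theorem Dir_const_add (c0 : ℝ) (q : ℕ → ℂ) (N : ℕ) : Dir (fun z => c0 + harm q N z) = Dir (harm q N) := by
  unfold Dir
  simp only [fderiv_const_add]

theorem Bd_const_add (ρ : ℝ → ℝ) (c0 : ℝ) (q : ℕ → ℂ) (N : ℕ) :
    Bd ρ (fun z => c0 + harm q N z) = ∫ θ in (-π)..π, ρ θ * (c0 + bd (harm q N) θ) ^ 2 := rfl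

theorem Dir_pos (q : ℕ → ℂ) (N : ℕ) : π * ‖q 0‖ ^ 2 ≤ Dir (harm q (N + 1)) := by
  rw [dir_harm]
  refine mul_le_mul_of_nonneg_left ?_ pi_pos.le
  have h := Finset.single_le_sum (f := fun m : ℕ => ((m:ℝ) + 1) * ‖q m‖ ^ 2) (s := Finset.range (N + 1))
    (fun m _ => by positivity) (Finset.mem_range.2 (Nat.succ_pos N))
  simpa using h

/-- a criterion for membership in the levels -/
theorem levels_of (ρ : ℝ → ℝ) (hρ0 : 0 < ∫ θ in (-π)..π, ρ θ) (Λ : ℝ) (hΛ : 0 ≤ Λ) (Q : ℂ → ℕ → ℂ) (N : ℕ)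
    (hQ : ∀ (a b : ℝ) (m : ℕ), Q ((a : ℂ) + b * Complex.I) m = a * Q 1 m + b * Q Complex.I m)
    (hQ0 : ∀ p, Q p 0 = 2 * p)
    (hle : ∀ (p : ℂ) (c0 : ℝ), Dir (harm (Q p) (N + 1)) ≤
      Λ * ∫ θ in (-π)..π, ρ θ * (c0 + bd (harm (Q p) (N + 1)) θ) ^ 2) : Λ ∈ Levels 2 ρ := by
  refine ⟨hΛ, ![fun _ => 1, harm (Q 1) (N + 1), harm (Q Complex.I) (N + 1)], ?_, ?_⟩
  · intro i
    fin_cases i
    · exact contDiff_const
    · exact harm_smooth _ _
    · exact harm_smooth _ _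
  · intro c hc
    set p : ℂ := (c 1 : ℂ) + (c 2 : ℂ) * Complex.I with hp
    have he : (fun z => ∑ i, c i * (![fun _ => 1, harm (Q 1) (N + 1), harm (Q Complex.I) (N + 1)] : Fin 3 → ℂ → ℝ) i z) =
        fun z => c 0 + harm (Q p) (N + 1) z := by
      funext z
      rw [Fin.sum_univ_three]
      simp only [Matrix.cons_val_zero, Matrix.cons_val_one, Matrix.cons_val, mul_one]
      rw [add_assoc]
      congr 1
      unfold harm
      rw [Finset.mul_sum, Finset.mul_sum, ← Finset.sum_add_distrib]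
      refine Finset.sum_congr rfl fun m _ => ?_
      rw [hp, hQ]
      have : ((c 1 : ℂ) * Q 1 m + (c 2 : ℂ) * Q Complex.I m) * z ^ (m + 1) =
          ((c 1 : ℝ) : ℂ) * (Q 1 m * z ^ (m + 1)) + ((c 2 : ℝ) : ℂ) * (Q Complex.I m * z ^ (m + 1)) := by ring
      rw [this, Complex.add_re, Complex.re_ofReal_mul, Complex.re_ofReal_mul]
    rw [he, Dir_const_add, Bd_const_add]
    refine ⟨?_, hle p (c 0)⟩
    by_cases hp0 : p = 0
    · have hQz : ∀ m, Q p m = 0 := by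
        intro m
        have h1 := hQ 0 0 m
        rw [hp0]
        simpa using h1
      have hb : ∀ θ, bd (harm (Q p) (N + 1)) θ = 0 := by
        intro θ
        rw [bd_harm]
        exact Finset.sum_eq_zero fun m _ => by rw [hQz]; simp
      simp only [hb, add_zero]
      rw [intervalIntegral.integral_mul_const]
      have hc0 : c 0 ≠ 0 := by
        intro h0
        apply hc
        have h1 : c 1 = 0 := by have := congrArg Complex.re hp0; simpa [hp] using this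
        have h2 : c 2 = 0 := by have := congrArg Complex.im hp0; simpa [hp] using this
        funext i
        fin_cases i
        · exact h0
        · exact h1
        · exact h2
      positivity
    · have h1 := Dir_pos (Q p) N
      have h2 := hle p (c 0)
      rw [hQ0, norm_mul, Complex.norm_ofNat] at h1
      have h3 : 0 < ‖p‖ := norm_pos_iff.2 hp0
      have h4 : 0 < π * (2 * ‖p‖) ^ 2 := by positivity
      have h5 : 0 < Λ * ∫ θ in (-π)..π, ρ θ * (c 0 + bd (harm (Q p) (N + 1)) θ) ^ 2 := by linarith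
      by_contra hcon
      push Not at hcon
      have := mul_nonpos_of_nonneg_of_nonpos hΛ hcon
      linarith

theorem qq_linear (h Λ a b : ℝ) (m : ℕ) : qq h Λ ((a : ℂ) + b * Complex.I) m =
    a * qq h Λ 1 m + b * qq h Λ Complex.I m := by
  unfold qq
  split_ifs with hm
  · ring
  · rw [cf_mul_pp _ (s2_BM h), cf_mul_pp _ (s2_BM h), cf_mul_pp _ (s2_BM h)]
    simp only [map_add, map_mul, Complex.conj_ofReal, Complex.conj_I, map_one]
    ring

/-- upper bound for the two-gap density -/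
theorem lam_upper (ε L Λ : ℝ) (h0 : 0 < ε) (hLdef : L = Real.log (1 / ε)) (hL : 10000 ≤ L)
    (hΛ : Λ = 1 + ε - (9 / 10) * ε ^ 2 * L) :
    Adm (1 - ε) (fun θ => 1 - s2 (π * ε / 2) θ) ∧ lam 2 (fun θ => 1 - s2 (π * ε / 2) θ) ≤ Λ := by
  obtain ⟨f1, f2, f3⟩ := eps_facts ε L h0 hLdef hL
  obtain ⟨hΛ1, hΛ2, J, hJ⟩ := upper_main ε L Λ h0 hLdef hL hΛ
  have hπ := pi_pos
  have hh0 : 0 < π * ε / 2 := by positivity
  have hh1 : π * ε / 2 < π / 4 := by nlinarith
  have hint : ∫ θ in (-π)..π, (1 - s2 (π * ε / 2) θ) = (1 - ε) * (2 * π) := by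
    rw [intervalIntegral.integral_sub intervalIntegrable_const ((s2_BM _).int _ _), s2_total _ hh0 hh1,
      intervalIntegral.integral_const]
    simp only [smul_eq_mul, mul_one]
    ring
  refine ⟨⟨measurable_const.sub (s2_BM _).1, Filter.Eventually.of_forall fun θ => ?_, hint⟩, ?_⟩
  · show 0 ≤ 1 - s2 (π * ε / 2) θ ∧ 1 - s2 (π * ε / 2) θ ≤ 1
    rcases s2_01 (π * ε / 2) θ with h | h <;> rw [h] <;> norm_num
  · refine csInf_le ⟨0, fun x hx => hx.1⟩ ?_
    refine levels_of _ ?_ Λ (by linarith) (qq (π * ε / 2) Λ) (4 * J) (qq_linear _ _) ?_ hJ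
    · rw [hint]
      have : 0 < 1 - ε := by linarith
      positivity
    · intro p; unfold qq; rw [if_pos rfl]

theorem s_bound (s : ℝ → ℝ) (hs : BM s) (hs0 : ∀ θ, 0 ≤ s θ) (f : ℝ → ℝ) (hf : BM f) (M : ℝ) (hM : ∀ θ, |f θ| ≤ M) :
    |∫ θ in (-π)..π, s θ * f θ| ≤ (∫ θ in (-π)..π, s θ) * M := by
  rw [← intervalIntegral.integral_mul_const]
  have h2 := intervalIntegral.norm_integral_le_integral_norm (f := fun θ => s θ * f θ) (μ := volume) negpi.le
  rw [Real.norm_eq_abs] at h2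
  refine h2.trans (intervalIntegral.integral_mono_on negpi.le ((hs.mul hf).int _ _).norm
    ((hs.int _ _).mul_const M) fun θ _ => ?_)
  rw [Real.norm_eq_abs, abs_mul, abs_of_nonneg (hs0 θ)]
  exact mul_le_mul_of_nonneg_left (hM θ) (hs0 θ)

/-- the levels of the three-arc density are nonempty -/
theorem levels_arcs (ε : ℝ) (h0 : 0 < ε) (h1 : ε ≤ 1 / 100) : (4:ℝ) ∈ Levels 2 (arcs 3 (1 - ε)) := by
  have hπ := pi_pos
  have hint := arcs_int (1 - ε) (by linarith) (by linarith)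
  have hB1 : BM (fun _ : ℝ => (1:ℝ)) := ⟨measurable_const, 1, fun _ => by norm_num⟩
  set s : ℝ → ℝ := fun θ => 1 - arcs 3 (1 - ε) θ with hs
  have hsB : BM s := hB1.sub (arcs_BM _ _)
  have hs0 : ∀ θ, 0 ≤ s θ := fun θ => by
    simp only [hs]; rcases arcs_01 3 (1 - ε) θ with h | h <;> rw [h] <;> norm_num
  have hsint : ∫ θ in (-π)..π, s θ = 2 * π * ε := by
    simp only [hs]
    rw [intervalIntegral.integral_sub intervalIntegrable_const ((arcs_BM _ _).int _ _), hint,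
      intervalIntegral.integral_const]
    simp only [smul_eq_mul, mul_one]
    ring
  refine levels_of _ ?_ 4 (by norm_num) (fun p _ => 2 * p) 0 (fun a b m => by ring) (fun p => rfl) ?_
  · rw [hint]
    have : 0 < 1 - ε := by linarith
    positivity
  · intro p c0
    have hid := energy_id s hsB (fun _ => 2 * p) (0 + 1) c0 4
    have he : ∀ θ, (1 - s θ) = arcs 3 (1 - ε) θ := fun θ => by simp only [hs]; ring
    simp only [he] at hid
    set g := bd (harm (fun _ => 2 * p) (0 + 1)) with hg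
    have hgB : BM g := harm_bdBM _ _
    have hgb : ∀ θ, |g θ| ≤ 2 * ‖p‖ := by
      intro θ
      rw [hg, bd_harm, zero_add, Finset.sum_range_one]
      have := Complex.abs_re_le_norm (2 * p * ex ((0:ℕ) + 1) θ)
      rw [norm_mul, ex_norm, mul_one, norm_mul, Complex.norm_ofNat] at this
      exact this
    have hg2 : ∀ θ, |g θ ^ 2| ≤ 4 * ‖p‖ ^ 2 := by
      intro θ
      rw [abs_pow]
      have := pow_le_pow_left₀ (abs_nonneg _) (hgb θ) 2
      refine this.trans (le_of_eq (by ring))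
    have hK := s_bound s hsB hs0 g hgB _ hgb
    have hK2 := s_bound s hsB hs0 (fun θ => g θ ^ 2) (by simpa only [sq] using hgB.mul hgB) _ hg2
    rw [hsint] at hid hK hK2
    rw [zero_add, Finset.sum_range_one, norm_mul, Complex.norm_ofNat] at hid
    set K := ∫ θ in (-π)..π, s θ * g θ with hKdef
    set K2 := ∫ θ in (-π)..π, s θ * g θ ^ 2 with hK2def
    set P := ‖p‖ with hP
    have hP0 : 0 ≤ P := norm_nonneg p
    have a1 := (abs_le.1 hK2).2
    have a2 : 2 * 4 * c0 * K ≤ 8 * |c0| * (2 * π * ε * (2 * P)) := by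
      have h3 : c0 * K ≤ |c0| * (2 * π * ε * (2 * P)) := by
        refine (le_abs_self _).trans ?_
        rw [abs_mul]
        exact mul_le_mul_of_nonneg_left hK (abs_nonneg _)
      linarith
    have a3 : 8 * |c0| * (2 * π * ε * (2 * P)) ≤ π * (c0 ^ 2 + P ^ 2) := by
      have h3 : 2 * (|c0| * P) ≤ c0 ^ 2 + P ^ 2 := by
        rw [← sq_abs c0]; nlinarith [sq_nonneg (|c0| - P)]
      have h4 : 0 ≤ |c0| * P := by positivity
      have h5 : 8 * |c0| * (2 * π * ε * (2 * P)) = 16 * ε * (π * (2 * (|c0| * P))) := by ring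
      rw [h5]
      have h6 : π * (2 * (|c0| * P)) ≤ π * (c0 ^ 2 + P ^ 2) := mul_le_mul_of_nonneg_left h3 hπ.le
      have h7 : 0 ≤ π * (2 * (|c0| * P)) := by positivity
      nlinarith
    have a4 : 4 * (2 * π * ε * (4 * P ^ 2)) ≤ π * P ^ 2 := by
      have h7 : 0 ≤ π * P ^ 2 := by positivity
      nlinarith
    have a5 : π * c0 ^ 2 ≤ 4 * (2 * π - 2 * π * ε) * c0 ^ 2 := by
      have h7 : 0 ≤ π * c0 ^ 2 := by positivity
      nlinarith
    have e0 : ((0:ℕ):ℝ) = 0 := Nat.cast_zero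
    rw [e0] at hid
    have hP2 : 0 ≤ π * P ^ 2 := by positivity
    linarith

/-- lower bound for the three-arc density -/
theorem lam_lower (ε L Λ : ℝ) (h0 : 0 < ε) (hLdef : L = Real.log (1 / ε)) (hL : 10000 ≤ L)
    (hΛ : Λ = 1 + ε - (4 / 5) * ε ^ 2 * L) : Λ ≤ lam 2 (arcs 3 (1 - ε)) := by
  obtain ⟨f1, f2, f3⟩ := eps_facts ε L h0 hLdef hL
  have hπ := pi_pos
  have hL0 : 0 ≤ L := by linarith
  have hεL : ε ^ 2 * L ≤ ε * (1 / 2500) := by
    have : ε ^ 2 * L = ε * (ε * L) := by ring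
    rw [this]; exact mul_le_mul_of_nonneg_left f3 h0.le
  have hεL0 : 0 ≤ ε ^ 2 * L := by positivity
  have hΛ1 : 1 ≤ Λ := by rw [hΛ]; linarith
  have hΛ2 : Λ ≤ 1 + ε := by rw [hΛ]; linarith
  have hΛ3 : Λ ≤ 3 / 2 := by linarith
  have hΛsq : Λ ^ 2 ≤ 1.01 := by nlinarith
  obtain ⟨g1, g2, g3⟩ := gap_facts ε h0 (by linarith)
  set J : ℕ := ⌊1 / ε⌋₊ with hJ
  have hx : 0 < 1 / ε := by positivity
  have hx1 : 1 ≤ 1 / ε := by rw [le_div_iff₀ h0]; linarith
  have hJ1 : 1 ≤ J := Nat.le_floor (by simpa using hx1)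
  have hJ1' : (1:ℝ) ≤ J := by exact_mod_cast hJ1
  have hH : ∑ i ∈ Finset.range J, 1 / ((i:ℝ) + 1) ≤ 1 + L := by
    rw [← harm_eq]
    refine (harmonic_le_one_add_log _).trans ?_
    have : Real.log (J : ℝ) ≤ L := by
      rw [hLdef]
      exact Real.log_le_log (by linarith) (Nat.floor_le hx.le)
    linarith
  have hJe : 1 / ε ≤ 3 * (J:ℝ) + 4 - Λ := by
    have := Nat.lt_floor_add_one (1 / ε)
    have h2 : 1 / ε < (J:ℝ) + 1 := this
    linarith
  have hfin : Λ ^ 2 * ε ^ 2 * (5 / 2 + (2 / 3) * ∑ i ∈ Finset.range J, 1 / ((i:ℝ) + 1)) +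
      Λ ^ 2 / (3 * J + 4 - Λ) * ε ≤ 1 - Λ + Λ * ε := by
    have b1 : Λ ^ 2 / (3 * J + 4 - Λ) * ε ≤ Λ ^ 2 * ε ^ 2 := by
      have h2 : 1 / (3 * (J:ℝ) + 4 - Λ) ≤ ε := by
        rw [div_le_iff₀ (lt_of_lt_of_le hx hJe)]
        have := mul_le_mul_of_nonneg_left hJe h0.le
        have e : ε * (1 / ε) = 1 := by field_simp
        linarith
      have h3 : Λ ^ 2 / (3 * J + 4 - Λ) * ε = (Λ ^ 2 * ε) * (1 / (3 * (J:ℝ) + 4 - Λ)) := by ring
      rw [h3]
      have := mul_le_mul_of_nonneg_left h2 (by positivity : 0 ≤ Λ ^ 2 * ε)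
      refine this.trans (le_of_eq (by ring))
    have b2 : Λ ^ 2 * ε ^ 2 * (5 / 2 + (2 / 3) * ∑ i ∈ Finset.range J, 1 / ((i:ℝ) + 1)) ≤
        Λ ^ 2 * ε ^ 2 * (5 / 2 + (2 / 3) * (1 + L)) :=
      mul_le_mul_of_nonneg_left (by linarith) (by positivity)
    have b3 : Λ ^ 2 * ε ^ 2 * (5 / 2 + (2 / 3) * (1 + L)) + Λ ^ 2 * ε ^ 2 =
        Λ ^ 2 * (ε ^ 2 * (25 / 6 + (2 / 3) * L)) := by ring
    have b4 : Λ ^ 2 * (ε ^ 2 * (25 / 6 + (2 / 3) * L)) ≤ 1.01 * (ε ^ 2 * (25 / 6 + (2 / 3) * L)) :=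
      mul_le_mul_of_nonneg_right hΛsq (by positivity)
    have b5 : 1 - Λ + Λ * ε = ε ^ 2 * (1 + (4 / 5) * L * (1 - ε)) := by rw [hΛ]; ring
    rw [b5]
    have b6 : 1.01 * (25 / 6 + (2 / 3) * L) ≤ 1 + (4 / 5) * L * (1 - ε) := by
      have : ε * L ≤ 1 / 2500 := f3
      nlinarith
    have b7 := mul_le_mul_of_nonneg_left b6 (sq_nonneg ε)
    linarith
  refine le_csInf ⟨4, levels_arcs ε h0 (by linarith)⟩ ?_
  rintro Λ' ⟨hΛ'0, u, hu, hc⟩
  -- a combination with mean zero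
  set m : Fin 3 → ℝ := fun i => ∫ θ in (-π)..π, bd (u i) θ with hm
  obtain ⟨c, hc0, hcm⟩ : ∃ c : Fin 3 → ℝ, c ≠ 0 ∧ ∑ i, c i * m i = 0 := by
    by_cases h : m 0 = 0
    · refine ⟨![1, 0, 0], fun h1 => ?_, ?_⟩
      · have := congrFun h1 0; simp at this
      · rw [Fin.sum_univ_three]; simp [h]
    · refine ⟨![-(m 1), m 0, 0], fun h1 => ?_, ?_⟩
      · have := congrFun h1 1; simp at this; exact h this
      · rw [Fin.sum_univ_three]; simp; ring
  obtain ⟨hpos, hle⟩ := hc c hc0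
  set v : ℂ → ℝ := fun z => ∑ i, c i * u i z with hv
  have hvs : ContDiff ℝ (⊤ : ℕ∞) v := ContDiff.sum fun i _ => contDiff_const.mul (hu i)
  have hv0 : cf (bd v) 0 = 0 := by
    have h1 : ∫ θ in (-π)..π, bd v θ = 0 := by
      have e : ∀ θ, bd v θ = ∑ i, c i * bd (u i) θ := fun θ => rfl
      simp only [e]
      rw [intervalIntegral.integral_finsetSum fun i _ => ((bd_BM (hu i).continuous).int _ _).const_mul _]
      simp only [intervalIntegral.integral_const_mul]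
      exact hcm
    unfold cf
    simp only [neg_zero, ex_zero, mul_one]
    have e2 : ∫ θ in (-π)..π, ((bd v θ : ℝ) : ℂ) = ((∫ θ in (-π)..π, bd v θ : ℝ) : ℂ) :=
      intervalIntegral.integral_ofReal
    rw [e2, h1]; simp
  have hmain := lower_main (fun θ => 1 - arcs 3 (1 - ε) θ) (measurable_const.sub (arcs_meas _ _))
    (fun θ => by rcases arcs_01 3 (1 - ε) θ with h | h <;> rw [h] <;> norm_num) ε Λ h0.le hΛ1 hΛ3 g1 g2 g3 J hfin v hvs hv0
  have e3 : ∫ θ in (-π)..π, (1 - (1 - arcs 3 (1 - ε) θ)) * (bd v θ) ^ 2 = Bd (arcs 3 (1 - ε)) v := by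
    unfold Bd
    refine intervalIntegral.integral_congr fun θ _ => ?_
    simp only [sub_sub_cancel]
    rfl
  rw [e3] at hmain
  by_contra hcon
  push Not at hcon
  have := mul_lt_mul_of_pos_right hcon hpos
  linarith

end Pool.Agent.R223.Stk
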